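import Mathlib

namespace Pool.Agent.Results.MP_1660ca_co.DistributiveCount

open Equiv

/-- `(a, b)` is an inversion of the permutation `w` of `Fin n`: `a < b`, and `b` occurs to the
left of `a` in the word `w(0) w(1) ... w(n-1)` (the position of a value `x` is `w.symm x`). -/
def IsInv {n : ℕ} (w : Perm (Fin n)) (a b : Fin n) : Prop :=
  a < b ∧ w.symm b < w.symm a

/-- The weak order: containment of the inversion sets. -/
def WeakLE {n : ℕ} (u v : Perm (Fin n)) : Prop :=
  ∀ a b, IsInv u a b → IsInv v a b

/-- The interval `[u, v]` of the weak order. -/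
def Interval {n : ℕ} (u v : Perm (Fin n)) : Type :=
  {w : Perm (Fin n) // WeakLE u w ∧ WeakLE w v}

/-- `[u, v]` with the order induced by the weak order is a distributive lattice. -/
def IsDistributiveInterval {n : ℕ} (u v : Perm (Fin n)) : Prop :=
  ∃ L : DistribLattice (Interval u v), ∀ x y : Interval u v, L.le x y ↔ WeakLE x.1 y.1

/-- `d n` is the number of pairs `u ≤ v` of permutations of `Fin n` for which `[u, v]` is a
distributive lattice. -/
noncomputable def d (n : ℕ) : ℕ :=
  Nat.card {p : Perm (Fin n) × Perm (Fin n) // WeakLE p.1 p.2 ∧ IsDistributiveInterval p.1 p.2}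

/-- The recurrence: `W 0 a g h = 1` and `W (n+1) a g h` is
`max (g+1-a) 0 * W n a (g+1) (h+1)` plus the sum over `i ≤ g`, `j ≤ h` with `i < a + j` of
`∑ k ≤ n, choose n k * W k a i j * W (n-k) (a+j-i) (g-i) (h-j)`. -/
def W : ℕ → ℕ → ℕ → ℕ → ℕ
  | 0, _, _, _ => 1
  | n + 1, a, g, h =>
      (g + 1 - a) * W n a (g + 1) (h + 1) +
        ∑ i ∈ Finset.range (g + 1), ∑ j ∈ Finset.range (h + 1),
          if i < a + j then
            ∑ k : Fin (n + 1), n.choose k.val *
              (W k.val a i j * W (n - k.val) (a + j - i) (g - i) (h - j))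
          else 0
termination_by n => n
decreasing_by all_goals omega

/-- The recurrence reproduces the known values. -/
theorem values : W 1 0 0 0 = 1 ∧ W 2 0 0 0 = 3 ∧ W 3 0 0 0 = 16 ∧ W 4 0 0 0 = 124 ∧
    W 5 0 0 0 = 1262 ∧ W 6 0 0 0 = 15898 := by
  decide +kernel

/-- No `a, b, c` in this order in the word of `u` and in the reverse order in that of `v`. -/
def Good {n : ℕ} (u v : Perm (Fin n)) : Prop :=
  ¬ ∃ a b c : Fin n, u.symm a < u.symm b ∧ u.symm b < u.symm c ∧
    v.symm c < v.symm b ∧ v.symm b < v.symm a

theorem inv_of_inv {n : ℕ} {u v : Perm (Fin n)} (h : WeakLE u v) {a b : Fin n}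
    (h1 : u.symm a < u.symm b) (h2 : v.symm b < v.symm a) : a < b := by
  by_contra hab
  have hne : a ≠ b := by rintro rfl; exact lt_irrefl _ h1
  have hlt : b < a := lt_of_le_of_ne (not_lt.1 hab) (Ne.symm hne)
  exact lt_asymm (h b a ⟨hlt, h1⟩).2 h2

theorem isInv_trans {n : ℕ} {w : Perm (Fin n)} {a b c : Fin n} (h1 : IsInv w a b)
    (h2 : IsInv w b c) : IsInv w a c := ⟨h1.1.trans h2.1, h2.2.trans h1.2⟩

theorem isInv_cotrans {n : ℕ} {w : Perm (Fin n)} {a b c : Fin n} (hab : a < b) (hbc : b < c)
    (h : IsInv w a c) : IsInv w a b ∨ IsInv w b c := by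
  rcases lt_trichotomy (w.symm b) (w.symm a) with h1 | h1 | h1
  · exact Or.inl ⟨hab, h1⟩
  · exact absurd (w.symm.injective h1) (ne_of_gt hab)
  · exact Or.inr ⟨hbc, h.2.trans h1⟩

theorem weakLE_antisymm {n : ℕ} {u v : Perm (Fin n)} (h1 : WeakLE u v) (h2 : WeakLE v u) :
    u = v := by
  have key : ∀ a b : Fin n, u.symm a < u.symm b → v.symm a < v.symm b := by
    intro a b hab
    by_contra hv
    have hne : a ≠ b := by rintro rfl; exact lt_irrefl _ hab
    have hv' : v.symm b < v.symm a :=
      lt_of_le_of_ne (not_lt.1 hv) (fun h => hne (v.symm.injective h).symm)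
    rcases lt_or_gt_of_ne hne with hlt | hlt
    · exact lt_asymm hab (h2 a b ⟨hlt, hv'⟩).2
    · exact lt_asymm hv' (h1 b a ⟨hlt, hab⟩).2
  have mono : StrictMono (fun i : Fin n => v.symm (u i)) := by
    intro i j hij
    exact key _ _ (by simpa using hij)
  have h : ∀ i, v.symm (u i) = i := by
    have := (Subsingleton.elim (⟨⟨(u.trans v.symm), by
      intro i j; exact mono.le_iff_le⟩⟩ : Nonempty (Fin n ≃o Fin n)) ⟨OrderIso.refl _⟩)
    intro i
    have e : (⟨(u.trans v.symm), by
      intro i j; exact mono.le_iff_le⟩ : Fin n ≃o Fin n) = OrderIso.refl _ :=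
      Subsingleton.elim _ _
    exact congrArg (fun f : Fin n ≃o Fin n => f i) e
  ext i
  have := h i
  have h' : u i = v i := by
    have := congrArg v this
    simpa using this
  rw [h']

/-- a strict total order on `Fin n` is the order of the positions for a permutation -/
theorem exists_perm {n : ℕ} (r : Fin n → Fin n → Prop) (hirr : ∀ a, ¬ r a a)
    (htr : ∀ a b c, r a b → r b c → r a c) (htot : ∀ a b, a ≠ b → r a b ∨ r b a) :
    ∃ w : Perm (Fin n), ∀ a b, w.symm a < w.symm b ↔ r a b := by
  classical
  let f : Fin n → ℕ := fun a => (Finset.univ.filter (fun b => r b a)).card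
  have hlt : ∀ a b, r a b → f a < f b := by
    intro a b hab
    apply Finset.card_lt_card
    refine ⟨?_, ?_⟩
    · intro c hc
      simp only [Finset.mem_filter, Finset.mem_univ, true_and] at hc ⊢
      exact htr _ _ _ hc hab
    · intro hsub
      have : a ∈ Finset.univ.filter (fun c => r c a) := hsub (by simpa using hab)
      simp only [Finset.mem_filter, Finset.mem_univ, true_and] at this
      exact hirr a this
  have hbd : ∀ a, f a < n := by
    intro a
    calc f a < (Finset.univ : Finset (Fin n)).card := by
          apply Finset.card_lt_card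
          refine ⟨Finset.filter_subset _ _, ?_⟩
          intro hsub
          have := hsub (Finset.mem_univ a)
          simp only [Finset.mem_filter, Finset.mem_univ, true_and] at this
          exact hirr a this
      _ = n := by simp
  have hinj : Function.Injective (fun a => (⟨f a, hbd a⟩ : Fin n)) := by
    intro a b hab
    by_contra hne
    have h' : f a = f b := by simpa using hab
    rcases htot a b hne with h | h
    · exact absurd h' (ne_of_lt (hlt _ _ h))
    · exact absurd h' (ne_of_gt (hlt _ _ h))
  let e : Perm (Fin n) := Equiv.ofBijective _ (Finite.injective_iff_bijective.1 hinj)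
  refine ⟨e.symm, ?_⟩
  intro a b
  have he : ∀ a, (e.symm.symm a : Fin n).val = f a := by intro a; rfl
  constructor
  · intro h
    have h1 : f a < f b := by
      rw [← he a, ← he b]; exact h
    have hne : a ≠ b := by rintro rfl; exact lt_irrefl _ h1
    rcases htot a b hne with h2 | h2
    · exact h2
    · exact absurd (hlt _ _ h2) (not_lt.2 h1.le)
  · intro h
    have : f a < f b := hlt _ _ h
    rw [← he a, ← he b] at this
    exact this

/-- a biclosed set of pairs is the inversion set of a permutation -/
theorem exists_perm_inv {n : ℕ} (S : Fin n → Fin n → Prop) (hS : ∀ a b, S a b → a < b)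
    (htr : ∀ a b c, S a b → S b c → S a c)
    (hco : ∀ a b c, a < b → b < c → S a c → S a b ∨ S b c) :
    ∃ w : Perm (Fin n), ∀ a b, IsInv w a b ↔ S a b := by
  classical
  obtain ⟨w, hw⟩ := exists_perm (fun a b => (a < b ∧ ¬ S a b) ∨ (b < a ∧ S b a))
    (by
      intro a h
      rcases h with h | h
      · exact lt_irrefl _ h.1
      · exact lt_irrefl _ h.1)
    (by
      intro a b c h1 h2
      rcases h1 with ⟨h1, h1'⟩ | ⟨h1, h1'⟩ <;> rcases h2 with ⟨h2, h2'⟩ | ⟨h2, h2'⟩
      · refine Or.inl ⟨h1.trans h2, fun h => ?_⟩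
        rcases hco a b c h1 h2 h with h3 | h3
        · exact h1' h3
        · exact h2' h3
      · rcases lt_trichotomy a c with h3 | h3 | h3
        · exact Or.inl ⟨h3, fun h => h1' (htr a c b h h2')⟩
        · subst h3; exact absurd h2' h1'
        · refine Or.inr ⟨h3, ?_⟩
          rcases hco c a b h3 h1 h2' with h4 | h4
          · exact h4
          · exact absurd h4 h1'
      · rcases lt_trichotomy a c with h3 | h3 | h3
        · refine Or.inl ⟨h3, fun h => h2' (htr b a c h1' h)⟩
        · subst h3; exact absurd h1' h2'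
        · refine Or.inr ⟨h3, ?_⟩
          rcases hco b c a h2 h3 h1' with h4 | h4
          · exact absurd h4 h2'
          · exact h4
      · exact Or.inr ⟨h2.trans h1, htr _ _ _ h2' h1'⟩)
    (by
      intro a b hab
      rcases lt_or_gt_of_ne hab with h | h
      · by_cases hs : S a b
        · exact Or.inr (Or.inr ⟨h, hs⟩)
        · exact Or.inl (Or.inl ⟨h, hs⟩)
      · by_cases hs : S b a
        · exact Or.inl (Or.inr ⟨h, hs⟩)
        · exact Or.inr (Or.inl ⟨h, hs⟩))
  refine ⟨w, fun a b => ?_⟩
  unfold IsInv
  rw [hw]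
  constructor
  · rintro ⟨h, h' | h'⟩
    · exact absurd h (not_lt.2 h'.1.le)
    · exact h'.2
  · intro h
    exact ⟨hS _ _ h, Or.inr ⟨hS _ _ h, h⟩⟩

theorem good_iff {n : ℕ} {u v : Perm (Fin n)} (h : WeakLE u v) :
    Good u v ↔ ¬ ∃ a b c : Fin n, IsInv v a b ∧ ¬ IsInv u a b ∧ IsInv v b c ∧ ¬ IsInv u b c := by
  unfold Good
  rw [not_iff_not]
  constructor
  · rintro ⟨a, b, c, h1, h2, h3, h4⟩
    refine ⟨a, b, c, ⟨inv_of_inv h h1 h4, h4⟩, fun h' => lt_asymm h'.2 h1,
      ⟨inv_of_inv h h2 h3, h3⟩, fun h' => lt_asymm h'.2 h2⟩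
  · rintro ⟨a, b, c, h1, h2, h3, h4⟩
    refine ⟨a, b, c, ?_, ?_, h3.2, h1.2⟩
    · rcases lt_trichotomy (u.symm a) (u.symm b) with h5 | h5 | h5
      · exact h5
      · exact absurd (u.symm.injective h5) (ne_of_lt h1.1)
      · exact absurd ⟨h1.1, h5⟩ h2
    · rcases lt_trichotomy (u.symm b) (u.symm c) with h5 | h5 | h5
      · exact h5
      · exact absurd (u.symm.injective h5) (ne_of_lt h3.1)
      · exact absurd ⟨h3.1, h5⟩ h4

theorem dist_of_good {n : ℕ} {u v : Perm (Fin n)} (huv : WeakLE u v) (hg : Good u v) :
    IsDistributiveInterval u v := by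
  classical
  rw [good_iff huv] at hg
  have hsup : ∀ x y : Interval u v, ∃ z : Interval u v,
      ∀ a b, IsInv z.1 a b ↔ IsInv x.1 a b ∨ IsInv y.1 a b := by
    rintro ⟨x, hx1, hx2⟩ ⟨y, hy1, hy2⟩
    obtain ⟨w, hw⟩ := exists_perm_inv (fun a b => IsInv x a b ∨ IsInv y a b)
      (by rintro a b (h | h) <;> exact h.1)
      (by
        rintro a b c (h1 | h1) (h2 | h2)
        · exact Or.inl (isInv_trans h1 h2)
        · by_cases h3 : IsInv y a b
          · exact Or.inr (isInv_trans h3 h2)
          by_cases h4 : IsInv x b c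
          · exact Or.inl (isInv_trans h1 h4)
          exact absurd ⟨a, b, c, hx2 _ _ h1, fun h => h3 (hy1 _ _ h), hy2 _ _ h2,
            fun h => h4 (hx1 _ _ h)⟩ hg
        · by_cases h3 : IsInv x a b
          · exact Or.inl (isInv_trans h3 h2)
          by_cases h4 : IsInv y b c
          · exact Or.inr (isInv_trans h1 h4)
          exact absurd ⟨a, b, c, hy2 _ _ h1, fun h => h3 (hx1 _ _ h), hx2 _ _ h2,
            fun h => h4 (hy1 _ _ h)⟩ hg
        · exact Or.inr (isInv_trans h1 h2))
      (by
        rintro a b c hab hbc (h | h)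
        · rcases isInv_cotrans hab hbc h with h | h
          · exact Or.inl (Or.inl h)
          · exact Or.inr (Or.inl h)
        · rcases isInv_cotrans hab hbc h with h | h
          · exact Or.inl (Or.inr h)
          · exact Or.inr (Or.inr h))
    refine ⟨⟨w, fun a b h => (hw a b).2 (Or.inl (hx1 a b h)), fun a b h => ?_⟩, hw⟩
    rcases (hw a b).1 h with h | h
    · exact hx2 _ _ h
    · exact hy2 _ _ h
  have hinf : ∀ x y : Interval u v, ∃ z : Interval u v,
      ∀ a b, IsInv z.1 a b ↔ IsInv x.1 a b ∧ IsInv y.1 a b := by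
    rintro ⟨x, hx1, hx2⟩ ⟨y, hy1, hy2⟩
    obtain ⟨w, hw⟩ := exists_perm_inv (fun a b => IsInv x a b ∧ IsInv y a b)
      (by rintro a b ⟨h, -⟩; exact h.1)
      (by
        rintro a b c ⟨h1, h1'⟩ ⟨h2, h2'⟩
        exact ⟨isInv_trans h1 h2, isInv_trans h1' h2'⟩)
      (by
        rintro a b c hab hbc ⟨h, h'⟩
        by_contra hcon
        push Not at hcon
        rcases isInv_cotrans hab hbc h with h1 | h1 <;>
        rcases isInv_cotrans hab hbc h' with h2 | h2
        · exact hcon.1 h1 h2
        · have h3 : ¬ IsInv y a b := fun h3 => hcon.1 h1 h3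
          have h4 : ¬ IsInv x b c := fun h4 => hcon.2 h4 h2
          exact hg ⟨a, b, c, hx2 _ _ h1, fun h => h3 (hy1 _ _ h), hy2 _ _ h2,
            fun h => h4 (hx1 _ _ h)⟩
        · have h3 : ¬ IsInv x a b := fun h3 => hcon.1 h3 h2
          have h4 : ¬ IsInv y b c := fun h4 => hcon.2 h1 h4
          exact hg ⟨a, b, c, hy2 _ _ h2, fun h => h3 (hx1 _ _ h), hx2 _ _ h1,
            fun h => h4 (hy1 _ _ h)⟩
        · exact hcon.2 h1 h2)
    refine ⟨⟨w, fun a b h => (hw a b).2 ⟨hx1 a b h, hy1 a b h⟩, fun a b h => ?_⟩, hw⟩
    exact hx2 _ _ ((hw a b).1 h).1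
  choose sup hsup using hsup
  choose inf hinf using hinf
  let L : DistribLattice (Interval u v) :=
    { le := fun x y => WeakLE x.1 y.1
      le_refl := fun x a b h => h
      le_trans := fun x y z h1 h2 a b h => h2 _ _ (h1 _ _ h)
      le_antisymm := fun x y h1 h2 => Subtype.ext (weakLE_antisymm h1 h2)
      sup := sup
      le_sup_left := fun x y a b h => (hsup x y a b).2 (Or.inl h)
      le_sup_right := fun x y a b h => (hsup x y a b).2 (Or.inr h)
      sup_le := fun x y z h1 h2 a b h => by
        rcases (hsup x y a b).1 h with h | h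
        · exact h1 _ _ h
        · exact h2 _ _ h
      inf := inf
      inf_le_left := fun x y a b h => ((hinf x y a b).1 h).1
      inf_le_right := fun x y a b h => ((hinf x y a b).1 h).2
      le_inf := fun x y z h1 h2 a b h => (hinf y z a b).2 ⟨h1 _ _ h, h2 _ _ h⟩
      le_sup_inf := fun x y z a b h => by
        have h1 := (hinf (sup x y) (sup x z) a b).1 h
        have h2 := (hsup x y a b).1 h1.1
        have h3 := (hsup x z a b).1 h1.2
        refine (hsup x (inf y z) a b).2 ?_
        rcases h2 with h2 | h2
        · exact Or.inl h2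
        rcases h3 with h3 | h3
        · exact Or.inl h3
        exact Or.inr ((hinf y z a b).2 ⟨h2, h3⟩) }
  exact ⟨L, fun x y => Iff.rfl⟩
theorem adj_swap {n : ℕ} (w : Perm (Fin n)) (i j : Fin n) (hij : j.val = i.val + 1)
    (hw : w j < w i) (a b : Fin n) :
    IsInv (w * swap i j) a b ↔ IsInv w a b ∧ ¬ (a = w j ∧ b = w i) := by
  have hs : ∀ x, (w * swap i j).symm x = swap i j (w.symm x) := by
    intro x
    rw [Equiv.symm_apply_eq]
    simp
  unfold IsInv
  rw [hs, hs]
  have ha : ∀ (k : Fin n) (x : Fin n), x = w k ↔ w.symm x = k := by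
    intro k x
    rw [Equiv.symm_apply_eq]
  rw [ha j a, ha i b]
  by_cases hab : a < b
  swap
  · simp [hab]
  have hne : w.symm a ≠ w.symm b := fun h => (ne_of_lt hab) (w.symm.injective h)
  have hwij : ¬ (w.symm a = i ∧ w.symm b = j) := by
    rintro ⟨h1, h2⟩
    rw [← ha] at h1 h2
    subst h1 h2
    exact lt_asymm hab hw
  generalize w.symm a = p at *
  generalize w.symm b = q at *
  rw [Equiv.swap_apply_def, Equiv.swap_apply_def]
  simp only [Fin.lt_def, Fin.ext_iff, ne_eq] at *
  simp only [hab, true_and]
  split_ifs <;> omega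

theorem exists_adj_descent (f : ℕ → ℕ) (p q : ℕ) (hpq : p < q) (h : f q < f p) :
    ∃ i, p ≤ i ∧ i < q ∧ f (i + 1) < f i := by
  by_contra hcon
  push Not at hcon
  have : ∀ k, p ≤ k → k ≤ q → f p ≤ f k := by
    intro k hk
    induction k, hk using Nat.le_induction with
    | base => intro _; exact le_rfl
    | succ m hm ih =>
      intro hq
      exact (ih (by omega)).trans (hcon m hm (by omega))
  exact absurd h (not_lt.2 (this q hpq.le le_rfl))

theorem not_dist_of_pattern {n : ℕ} {u v : Perm (Fin n)} {p q r : Fin n}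
    (hq : q.val = p.val + 1) (hr : r.val = q.val + 1) {v' : Perm (Fin n)}
    (hv' : WeakLE v' v) (h1 : v' r < v' q) (h2 : v' q < v' p) (huv' : WeakLE u v')
    (h3 : ¬ IsInv u (v' r) (v' q)) (h4 : ¬ IsInv u (v' q) (v' p)) :
    ¬ IsDistributiveInterval u v := by
  obtain ⟨a, ha⟩ : ∃ a, v' r = a := ⟨_, rfl⟩
  obtain ⟨b, hb⟩ : ∃ b, v' q = b := ⟨_, rfl⟩
  obtain ⟨c, hc⟩ : ∃ c, v' p = c := ⟨_, rfl⟩
  rw [ha, hb] at h1
  rw [hb, hc] at h2
  rw [ha, hb] at h3
  rw [hb, hc] at h4
  have hpq : p ≠ q := by intro h; rw [h] at hq; omega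
  have hqr : q ≠ r := by intro h; rw [h] at hr; omega
  have hpr : p ≠ r := by intro h; rw [h] at hq; omega
  have h5 : ¬ IsInv u a c := fun h => by
    rcases isInv_cotrans h1 h2 h with h | h
    · exact h3 h
    · exact h4 h
  set t1 := v' * swap p q with ht1
  set t2 := t1 * swap q r with ht2
  set t3 := t2 * swap p q with ht3
  set s1 := v' * swap q r with hs1
  set s2 := s1 * swap p q with hs2
  have e1 : t1 p = b ∧ t1 q = c ∧ t1 r = a := by
    refine ⟨?_, ?_, ?_⟩
    · simp [ht1, hb]
    · simp [ht1, hc]
    · rw [ht1, Perm.mul_apply, swap_apply_of_ne_of_ne (Ne.symm hpr) (Ne.symm hqr), ha]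
  have e2 : t2 p = b ∧ t2 q = a ∧ t2 r = c := by
    refine ⟨?_, ?_, ?_⟩
    · rw [ht2, Perm.mul_apply, swap_apply_of_ne_of_ne hpq hpr, e1.1]
    · simp [ht2, e1.2.2]
    · simp [ht2, e1.2.1]
  have e3 : s1 p = c ∧ s1 q = a ∧ s1 r = b := by
    refine ⟨?_, ?_, ?_⟩
    · rw [hs1, Perm.mul_apply, swap_apply_of_ne_of_ne hpq hpr, hc]
    · simp [hs1, ha]
    · simp [hs1, hb]
  have i1 : ∀ x y, IsInv t1 x y ↔ IsInv v' x y ∧ ¬ (x = b ∧ y = c) := by
    intro x y
    have := adj_swap v' p q hq (by rw [hb, hc]; exact h2) x y
    rw [hb, hc] at this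
    exact this
  have i2 : ∀ x y, IsInv t2 x y ↔ IsInv t1 x y ∧ ¬ (x = a ∧ y = c) := by
    intro x y
    have := adj_swap t1 q r hr (by rw [e1.2.1, e1.2.2]; exact h1.trans h2) x y
    rw [e1.2.1, e1.2.2] at this
    exact this
  have i3 : ∀ x y, IsInv t3 x y ↔ IsInv t2 x y ∧ ¬ (x = a ∧ y = b) := by
    intro x y
    have := adj_swap t2 p q hq (by rw [e2.1, e2.2.1]; exact h1) x y
    rw [e2.1, e2.2.1] at this
    exact this
  have i4 : ∀ x y, IsInv s1 x y ↔ IsInv v' x y ∧ ¬ (x = a ∧ y = b) := by
    intro x y
    have := adj_swap v' q r hr (by rw [ha, hb]; exact h1) x y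
    rw [ha, hb] at this
    exact this
  have i5 : ∀ x y, IsInv s2 x y ↔ IsInv s1 x y ∧ ¬ (x = a ∧ y = c) := by
    intro x y
    have := adj_swap s1 p q hq (by rw [e3.1, e3.2.1]; exact h1.trans h2) x y
    rw [e3.1, e3.2.1] at this
    exact this
  -- basic facts on inversions of v'
  have v'a : v'.symm a = r := by rw [← ha]; simp
  have v'b : v'.symm b = q := by rw [← hb]; simp
  have v'c : v'.symm c = p := by rw [← hc]; simp
  have hpq' : p < q := by rw [Fin.lt_def]; omega
  have hqr' : q < r := by rw [Fin.lt_def]; omega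
  have vab : IsInv v' a b := ⟨h1, by rw [v'a, v'b]; exact hqr'⟩
  have vbc : IsInv v' b c := ⟨h2, by rw [v'b, v'c]; exact hpq'⟩
  have vac : IsInv v' a c := isInv_trans vab vbc
  have hu3 : WeakLE u t3 := by
    intro x y hxy
    rw [i3, i2, i1]
    refine ⟨⟨⟨huv' _ _ hxy, ?_⟩, ?_⟩, ?_⟩
    · rintro ⟨rfl, rfl⟩; exact h4 hxy
    · rintro ⟨rfl, rfl⟩; exact h5 hxy
    · rintro ⟨rfl, rfl⟩; exact h3 hxy
  have hu2 : WeakLE u t2 := fun x y hxy => ((i3 x y).1 (hu3 x y hxy)).1
  have hu1 : WeakLE u t1 := fun x y hxy => ((i2 x y).1 (hu2 x y hxy)).1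
  have hus2 : WeakLE u s2 := by
    intro x y hxy
    rw [i5, i4]
    refine ⟨⟨huv' _ _ hxy, ?_⟩, ?_⟩
    · rintro ⟨rfl, rfl⟩; exact h3 hxy
    · rintro ⟨rfl, rfl⟩; exact h5 hxy
  have t1v : WeakLE t1 v := fun x y hxy => hv' _ _ ((i1 x y).1 hxy).1
  have t2v : WeakLE t2 v := fun x y hxy => t1v _ _ ((i2 x y).1 hxy).1
  have s2v : WeakLE s2 v := fun x y hxy => hv' _ _ ((i4 x y).1 ((i5 x y).1 hxy).1).1
  rintro ⟨L, hL⟩
  letI := L
  let T1 : Interval u v := ⟨t1, hu1, t1v⟩
  let T2 : Interval u v := ⟨t2, hu2, t2v⟩
  let Y : Interval u v := ⟨s2, hus2, s2v⟩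
  have hL' : ∀ x y : Interval u v, x ≤ y ↔ WeakLE x.1 y.1 := hL
  have nab : ¬ (a = b) := ne_of_lt h1
  have nbc : ¬ (b = c) := ne_of_lt h2
  have nac : ¬ (a = c) := ne_of_lt (h1.trans h2)
  have k1 : T1 ≤ T2 ⊔ Y := by
    rw [hL']
    intro x y hxy
    have hxy' : IsInv t1 x y := hxy
    have m1 : WeakLE t2 (T2 ⊔ Y).1 := (hL' T2 (T2 ⊔ Y)).1 le_sup_left
    have m2 : WeakLE s2 (T2 ⊔ Y).1 := (hL' Y (T2 ⊔ Y)).1 le_sup_right
    by_cases hc1 : x = a ∧ y = c
    · obtain ⟨rfl, rfl⟩ := hc1
      refine isInv_trans (b := b) (m1 _ _ ?_) (m2 _ _ ?_)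
      · rw [i2, i1]
        exact ⟨⟨vab, fun h => nab h.1⟩, fun h => nbc h.2⟩
      · rw [i5, i4]
        exact ⟨⟨vbc, fun h => nab h.1.symm⟩, fun h => nab h.1.symm⟩
    · exact m1 _ _ ((i2 x y).2 ⟨hxy', hc1⟩)
  have k2 : T1 ⊓ Y ≤ T2 := by
    rw [hL']
    intro x y hxy
    have m1 : WeakLE (T1 ⊓ Y).1 t1 := (hL' (T1 ⊓ Y) T1).1 inf_le_left
    have m2 : WeakLE (T1 ⊓ Y).1 s2 := (hL' (T1 ⊓ Y) Y).1 inf_le_right
    exact (i2 x y).2 ⟨m1 _ _ hxy, ((i5 x y).1 (m2 _ _ hxy)).2⟩
  have k3 : T1 ≤ T2 := by
    calc T1 = T1 ⊓ (T2 ⊔ Y) := (inf_eq_left.2 k1).symm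
      _ = (T1 ⊓ T2) ⊔ (T1 ⊓ Y) := inf_sup_left _ _ _
      _ ≤ T2 := sup_le inf_le_right k2
  have k4 : WeakLE t1 t2 := (hL' T1 T2).1 k3
  have k5 := k4 a c ((i1 a c).2 ⟨vac, fun h => nab h.1⟩)
  exact ((i2 a c).1 k5).2 ⟨rfl, rfl⟩

theorem good_of_dist {n : ℕ} {u v : Perm (Fin n)} (huv : WeakLE u v)
    (hd : IsDistributiveInterval u v) : Good u v := by
  classical
  by_contra hng
  rw [good_iff huv, not_not] at hng
  -- minimal v'
  let N : Perm (Fin n) → ℕ := fun w =>
    (Finset.univ.filter (fun x : Fin n × Fin n => IsInv w x.1 x.2)).card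
  let Q : Perm (Fin n) → Prop := fun w => WeakLE u w ∧ WeakLE w v ∧
    ∃ a b c : Fin n, IsInv w a b ∧ ¬ IsInv u a b ∧ IsInv w b c ∧ ¬ IsInv u b c
  have hex : ∃ m, ∃ w, Q w ∧ N w = m := ⟨N v, v, ⟨huv, fun _ _ h => h, hng⟩, rfl⟩
  obtain ⟨v', ⟨hQ1, hQ2, a, b, c, hab, hab', hbc, hbc'⟩, hN⟩ := Nat.find_spec hex
  have hmin : ∀ w, Q w → N v' ≤ N w := by
    intro w hw
    rw [hN]
    exact Nat.find_min' hex ⟨w, hw, rfl⟩
  -- claim
  have claim : ∀ i j : Fin n, j.val = i.val + 1 → u.symm (v' j) < u.symm (v' i) →
      (a = v' j ∧ b = v' i) ∨ (b = v' j ∧ c = v' i) := by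
    intro i j hij hlt
    by_contra hcon
    push Not at hcon
    have hij' : i < j := by rw [Fin.lt_def]; omega
    have hlt' : v' j < v' i := by
      refine inv_of_inv hQ1 hlt ?_
      simpa using hij'
    have hinv := adj_swap v' i j hij hlt'
    have hnu : ¬ IsInv u (v' j) (v' i) := fun h => lt_asymm h.2 hlt
    have hvji : IsInv v' (v' j) (v' i) := ⟨hlt', by simpa using hij'⟩
    have hle : N v' ≤ N (v' * swap i j) := by
      apply hmin
      refine ⟨?_, ?_, a, b, c, ?_, hab', ?_, hbc'⟩
      · intro x y hxy
        rw [hinv]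
        refine ⟨hQ1 _ _ hxy, ?_⟩
        rintro ⟨rfl, rfl⟩
        exact hnu hxy
      · intro x y hxy
        exact hQ2 _ _ ((hinv x y).1 hxy).1
      · rw [hinv]
        refine ⟨hab, ?_⟩
        rintro ⟨h1, h2⟩
        exact hcon.1 h1 h2
      · rw [hinv]
        refine ⟨hbc, ?_⟩
        rintro ⟨h1, h2⟩
        exact hcon.2 h1 h2
    have hlt2 : N (v' * swap i j) < N v' := by
      apply Finset.card_lt_card
      refine ⟨?_, ?_⟩
      · intro x hx
        simp only [Finset.mem_filter, Finset.mem_univ, true_and] at hx ⊢
        exact ((hinv _ _).1 hx).1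
      · intro hsub
        have : (v' j, v' i) ∈ Finset.univ.filter
            (fun x : Fin n × Fin n => IsInv (v' * swap i j) x.1 x.2) :=
          hsub (by simpa using hvji)
        simp only [Finset.mem_filter, Finset.mem_univ, true_and] at this
        exact ((hinv _ _).1 this).2 ⟨rfl, rfl⟩
    omega
  have desc : ∀ p q : Fin n, p < q → u.symm (v' q) < u.symm (v' p) →
      ∃ i j : Fin n, j.val = i.val + 1 ∧ p ≤ i ∧ j ≤ q ∧ u.symm (v' j) < u.symm (v' i) := by
    intro p q hpq hlt
    obtain ⟨i, h1, h2, h3⟩ := exists_adj_descent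
      (fun k => if h : k < n then (u.symm (v' ⟨k, h⟩)).val else 0) p.val q.val hpq (by
        simp only [p.2, q.2, dif_pos]
        exact hlt)
    have hi : i < n := by have := q.2; omega
    have hi1 : i + 1 < n := by have := q.2; omega
    refine ⟨⟨i, hi⟩, ⟨i + 1, hi1⟩, rfl, ?_, ?_, ?_⟩
    · rw [Fin.le_def]; exact h1
    · rw [Fin.le_def]; exact h2
    · simp only [hi, hi1, dif_pos] at h3
      exact h3
  have uab : u.symm a < u.symm b := by
    rcases lt_trichotomy (u.symm a) (u.symm b) with h | h | h
    · exact h
    · exact absurd (u.symm.injective h) (ne_of_lt hab.1)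
    · exact absurd ⟨hab.1, h⟩ hab'
  have ubc : u.symm b < u.symm c := by
    rcases lt_trichotomy (u.symm b) (u.symm c) with h | h | h
    · exact h
    · exact absurd (u.symm.injective h) (ne_of_lt hbc.1)
    · exact absurd ⟨hbc.1, h⟩ hbc'
  obtain ⟨p, hp⟩ : ∃ p, v'.symm c = p := ⟨_, rfl⟩
  obtain ⟨q, hq⟩ : ∃ q, v'.symm b = q := ⟨_, rfl⟩
  obtain ⟨r, hr⟩ : ∃ r, v'.symm a = r := ⟨_, rfl⟩
  have hp' : v' p = c := by rw [← hp]; simp
  have hq' : v' q = b := by rw [← hq]; simp
  have hr' : v' r = a := by rw [← hr]; simp
  have hpq : p < q := by rw [← hp, ← hq]; exact hbc.2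
  have hqr : q < r := by rw [← hq, ← hr]; exact hab.2
  have hq1 : q.val = p.val + 1 := by
    obtain ⟨i, j, h1, h2, h3, h4⟩ := desc p q hpq (by rw [hp', hq']; exact ubc)
    rcases claim i j h1 h4 with ⟨h5, h6⟩ | ⟨h5, h6⟩
    · have : r = j := by
        apply v'.injective
        rw [hr', h5]
      rw [this] at hqr
      exact absurd h3 (not_le.2 hqr)
    · have e1 : q = j := by
        apply v'.injective
        rw [hq', h5]
      have e2 : p = i := by
        apply v'.injective
        rw [hp', h6]
      rw [e1, e2]; exact h1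
  have hr1 : r.val = q.val + 1 := by
    obtain ⟨i, j, h1, h2, h3, h4⟩ := desc q r hqr (by rw [hr', hq']; exact uab)
    rcases claim i j h1 h4 with ⟨h5, h6⟩ | ⟨h5, h6⟩
    · have e1 : r = j := by
        apply v'.injective
        rw [hr', h5]
      have e2 : q = i := by
        apply v'.injective
        rw [hq', h6]
      rw [e1, e2]; exact h1
    · have : p = i := by
        apply v'.injective
        rw [hp', h6]
      rw [this] at hpq
      exact absurd h2 (not_le.2 hpq)
  refine not_dist_of_pattern hq1 hr1 hQ2 ?_ ?_ hQ1 ?_ ?_ hd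
  · rw [hr', hq']; exact hab.1
  · rw [hq', hp']; exact hbc.1
  · rw [hr', hq']; exact hab'
  · rw [hq', hp']; exact hbc'

theorem dist_iff {n : ℕ} {u v : Perm (Fin n)} (huv : WeakLE u v) :
    IsDistributiveInterval u v ↔ Good u v :=
  ⟨good_of_dist huv, dist_of_good huv⟩
/-- insert `c` in the list `l` so that it is preceded by `y` entries -/
def insl (y : ℕ) (c : Bool) (l : List Bool) : List Bool := l.take y ++ c :: l.drop y

/-- number of `true` among the first `y` entries -/
def cnt (y : ℕ) (l : List Bool) : ℕ := (l.take y).count true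

def T : ℕ → ℕ → List Bool → List Bool → ℕ
  | 0, _, _, _ => 1
  | m + 1, δ, V, U =>
      ∑ y ∈ Finset.range (V.length + 1), ∑ x ∈ Finset.range (U.length + 1),
        if cnt y V = cnt x U ∧ y ≤ x + δ then
          T m δ (insl y (decide (y < x + δ)) V) (insl x (decide (y < x + δ)) U) else 0

theorem insl_length (y : ℕ) (c : Bool) (l : List Bool) : (insl y c l).length = l.length + 1 := by
  unfold insl
  simp only [List.length_append, List.length_take, List.length_cons, List.length_drop]
  omega

theorem insl_left (y : ℕ) (c : Bool) (l r : List Bool) (h : y ≤ l.length) :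
    insl y c (l ++ r) = insl y c l ++ r := by
  unfold insl
  rw [List.take_append_of_le_length h, List.drop_append_of_le_length h]
  simp

theorem insl_right (y : ℕ) (c b : Bool) (l r : List Bool) :
    insl (l.length + 1 + y) c (l ++ b :: r) = l ++ b :: insl y c r := by
  unfold insl
  have h1 : (l ++ b :: r).take (l.length + 1 + y) = l ++ b :: r.take y := by
    rw [show l.length + 1 + y = l.length + (y + 1) by ring, List.take_length_add_append]
    simp
  have h2 : (l ++ b :: r).drop (l.length + 1 + y) = r.drop y := by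
    rw [show l.length + 1 + y = l.length + (y + 1) by ring, List.drop_length_add_append]
    simp
  rw [h1, h2]
  simp

theorem cnt_left (y : ℕ) (l r : List Bool) (h : y ≤ l.length) :
    cnt y (l ++ r) = cnt y l := by
  unfold cnt
  rw [List.take_append_of_le_length h]

theorem cnt_right (y : ℕ) (l r : List Bool) :
    cnt (l.length + 1 + y) (l ++ true :: r) = l.count true + 1 + cnt y r := by
  unfold cnt
  have h1 : (l ++ true :: r).take (l.length + 1 + y) = l ++ true :: r.take y := by
    rw [show l.length + 1 + y = l.length + (y + 1) by ring, List.take_length_add_append]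
    simp
  rw [h1]
  simp
  ring

theorem cnt_le (y : ℕ) (l : List Bool) : cnt y l ≤ l.count true :=
  List.Sublist.count_le _ (List.take_sublist _ _)

theorem count_insl (y : ℕ) (c : Bool) (l : List Bool) :
    (insl y c l).count true = l.count true + (if c = true then 1 else 0) := by
  unfold insl
  rw [List.count_append, List.count_cons]
  have : l.count true = (l.take y).count true + (l.drop y).count true := by
    rw [← List.count_append, List.take_append_drop]
  rw [this]
  cases c <;> simp
  ring

/-- a sum over the gaps of `l ++ true :: r` splits in the two sides -/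
theorem sum_split (a b : ℕ) (f : ℕ → ℕ) :
    ∑ y ∈ Finset.range (a + (b + 1) + 1), f y =
      ∑ y ∈ Finset.range (a + 1), f y + ∑ y ∈ Finset.range (b + 1), f (a + 1 + y) := by
  rw [show a + (b + 1) + 1 = (a + 1) + (b + 1) by ring, Finset.sum_range_add]

/-- binomial (Leibniz) product formula -/
theorem T_append (m : ℕ) : ∀ (δ : ℕ) (V1 V2 U1 U2 : List Bool),
    V1.count true = U1.count true → V1.length ≤ δ + U1.length →
    T m δ (V1 ++ true :: V2) (U1 ++ true :: U2) =
      ∑ k ∈ Finset.range (m + 1), m.choose k * (T k δ V1 U1 *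
        T (m - k) (δ + U1.length - V1.length) V2 U2) := by
  induction m with
  | zero => intro δ V1 V2 U1 U2 _ _; simp [T]
  | succ m ih =>
    intro δ V1 V2 U1 U2 hc hl
    obtain ⟨δ', hδ'⟩ : ∃ δ', δ + U1.length - V1.length = δ' := ⟨_, rfl⟩
    -- the left moves and the right moves
    have step : T (m + 1) δ (V1 ++ true :: V2) (U1 ++ true :: U2) =
        (∑ y ∈ Finset.range (V1.length + 1), ∑ x ∈ Finset.range (U1.length + 1),
          if cnt y V1 = cnt x U1 ∧ y ≤ x + δ then
            T m δ (insl y (decide (y < x + δ)) V1 ++ true :: V2)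
              (insl x (decide (y < x + δ)) U1 ++ true :: U2) else 0) +
        (∑ y ∈ Finset.range (V2.length + 1), ∑ x ∈ Finset.range (U2.length + 1),
          if cnt y V2 = cnt x U2 ∧ y ≤ x + δ' then
            T m δ (V1 ++ true :: insl y (decide (y < x + δ')) V2)
              (U1 ++ true :: insl x (decide (y < x + δ')) U2) else 0) := by
      rw [T]
      simp only [List.length_append, List.length_cons]
      rw [sum_split]
      congr 1
      · apply Finset.sum_congr rfl
        intro y hy
        rw [Finset.mem_range] at hy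
        rw [sum_split]
        have hz : ∑ x ∈ Finset.range (U2.length + 1),
            (if cnt y (V1 ++ true :: V2) = cnt (U1.length + 1 + x) (U1 ++ true :: U2) ∧
              y ≤ U1.length + 1 + x + δ then
              T m δ (insl y (decide (y < U1.length + 1 + x + δ)) (V1 ++ true :: V2))
                (insl (U1.length + 1 + x) (decide (y < U1.length + 1 + x + δ))
                  (U1 ++ true :: U2)) else 0) = 0 := by
          apply Finset.sum_eq_zero
          intro x _
          rw [if_neg]
          rintro ⟨h, -⟩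
          rw [cnt_left y _ _ (by omega), cnt_right] at h
          have := cnt_le y V1
          omega
        rw [hz, add_zero]
        apply Finset.sum_congr rfl
        intro x hx
        rw [Finset.mem_range] at hx
        rw [cnt_left y _ _ (by omega), cnt_left x _ _ (by omega), insl_left y _ _ _ (by omega),
          insl_left x _ _ _ (by omega)]
      · apply Finset.sum_congr rfl
        intro y hy
        rw [Finset.mem_range] at hy
        rw [sum_split]
        have hz : ∑ x ∈ Finset.range (U1.length + 1),
            (if cnt (V1.length + 1 + y) (V1 ++ true :: V2) = cnt x (U1 ++ true :: U2) ∧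
              V1.length + 1 + y ≤ x + δ then
              T m δ (insl (V1.length + 1 + y) (decide (V1.length + 1 + y < x + δ))
                (V1 ++ true :: V2)) (insl x (decide (V1.length + 1 + y < x + δ))
                  (U1 ++ true :: U2)) else 0) = 0 := by
          apply Finset.sum_eq_zero
          intro x hx
          rw [Finset.mem_range] at hx
          rw [if_neg]
          rintro ⟨h, -⟩
          rw [cnt_left x _ _ (by omega), cnt_right] at h
          have := cnt_le x U1
          omega
        rw [hz, zero_add]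
        apply Finset.sum_congr rfl
        intro x hx
        rw [cnt_right, cnt_right, insl_right, insl_right]
        have e1 : (V1.length + 1 + y ≤ U1.length + 1 + x + δ) ↔ y ≤ x + δ' := by omega
        have e2 : decide (V1.length + 1 + y < U1.length + 1 + x + δ) = decide (y < x + δ') := by
          rw [decide_eq_decide]; omega
        have e3 : (V1.count true + 1 + cnt y V2 = U1.count true + 1 + cnt x U2) ↔
            cnt y V2 = cnt x U2 := by omega
        rw [e2]
        simp only [e1, e3]
    rw [step]
    -- left moves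
    have left : (∑ y ∈ Finset.range (V1.length + 1), ∑ x ∈ Finset.range (U1.length + 1),
          if cnt y V1 = cnt x U1 ∧ y ≤ x + δ then
            T m δ (insl y (decide (y < x + δ)) V1 ++ true :: V2)
              (insl x (decide (y < x + δ)) U1 ++ true :: U2) else 0) =
        ∑ k ∈ Finset.range (m + 1), m.choose k * (T (k + 1) δ V1 U1 * T (m - k) δ' V2 U2) := by
      have : ∀ y ∈ Finset.range (V1.length + 1), ∀ x ∈ Finset.range (U1.length + 1),
          (if cnt y V1 = cnt x U1 ∧ y ≤ x + δ then
            T m δ (insl y (decide (y < x + δ)) V1 ++ true :: V2)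
              (insl x (decide (y < x + δ)) U1 ++ true :: U2) else 0) =
          ∑ k ∈ Finset.range (m + 1), m.choose k *
            ((if cnt y V1 = cnt x U1 ∧ y ≤ x + δ then
              T k δ (insl y (decide (y < x + δ)) V1) (insl x (decide (y < x + δ)) U1) else 0) *
              T (m - k) δ' V2 U2) := by
        intro y _ x _
        split_ifs with h
        · rw [ih]
          · simp only [insl_length]
            have : δ + (U1.length + 1) - (V1.length + 1) = δ' := by omega
            rw [this]
          · rw [count_insl, count_insl, hc]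
          · rw [insl_length, insl_length]; omega
        · simp
      rw [Finset.sum_congr rfl (fun y hy => Finset.sum_congr rfl (this y hy))]
      rw [Finset.sum_congr rfl (fun y _ => Finset.sum_comm)]
      rw [Finset.sum_comm]
      apply Finset.sum_congr rfl
      intro k _
      rw [T, Finset.sum_mul, Finset.mul_sum]
      apply Finset.sum_congr rfl
      intro y _
      rw [Finset.sum_mul, Finset.mul_sum]
    have right : (∑ y ∈ Finset.range (V2.length + 1), ∑ x ∈ Finset.range (U2.length + 1),
          if cnt y V2 = cnt x U2 ∧ y ≤ x + δ' then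
            T m δ (V1 ++ true :: insl y (decide (y < x + δ')) V2)
              (U1 ++ true :: insl x (decide (y < x + δ')) U2) else 0) =
        ∑ k ∈ Finset.range (m + 1), m.choose k * (T k δ V1 U1 * T (m - k + 1) δ' V2 U2) := by
      have : ∀ y ∈ Finset.range (V2.length + 1), ∀ x ∈ Finset.range (U2.length + 1),
          (if cnt y V2 = cnt x U2 ∧ y ≤ x + δ' then
            T m δ (V1 ++ true :: insl y (decide (y < x + δ')) V2)
              (U1 ++ true :: insl x (decide (y < x + δ')) U2) else 0) =
          ∑ k ∈ Finset.range (m + 1), m.choose k * (T k δ V1 U1 *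
            (if cnt y V2 = cnt x U2 ∧ y ≤ x + δ' then
              T (m - k) δ' (insl y (decide (y < x + δ')) V2)
                (insl x (decide (y < x + δ')) U2) else 0)) := by
        intro y _ x _
        split_ifs with h
        · rw [ih _ _ _ _ _ hc hl, hδ']
        · simp
      rw [Finset.sum_congr rfl (fun y hy => Finset.sum_congr rfl (this y hy))]
      rw [Finset.sum_congr rfl (fun y _ => Finset.sum_comm)]
      rw [Finset.sum_comm]
      apply Finset.sum_congr rfl
      intro k _
      rw [T, Finset.mul_sum, Finset.mul_sum]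
      apply Finset.sum_congr rfl
      intro y _
      rw [Finset.mul_sum, Finset.mul_sum]
    rw [left, right, hδ']
    -- binomial identity
    have hR : ∑ k ∈ Finset.range (m + 1 + 1), (m + 1).choose k *
        (T k δ V1 U1 * T (m + 1 - k) δ' V2 U2) =
        ∑ k ∈ Finset.range (m + 1), m.choose k * (T (k + 1) δ V1 U1 * T (m - k) δ' V2 U2) +
        ∑ k ∈ Finset.range (m + 1), m.choose k * (T k δ V1 U1 * T (m - k + 1) δ' V2 U2) := by
      rw [Finset.sum_range_succ']
      simp only [Nat.choose_succ_succ, add_mul, Finset.sum_add_distrib]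
      rw [add_assoc]
      congr 1
      · apply Finset.sum_congr rfl
        intro k _
        rw [show m + 1 - (k + 1) = m - k by omega]
      · rw [Finset.sum_range_succ]
        simp only [Nat.choose_succ_self, zero_mul, add_zero]
        rw [Finset.sum_range_succ' _ m]
        congr 1
        · apply Finset.sum_congr rfl
          intro k hk
          rw [Finset.mem_range] at hk
          rw [show m + 1 - (k + 1) = m - (k + 1) + 1 by omega]
        · simp
    rw [hR]

theorem insl_replicate (y g : ℕ) (h : y ≤ g) (c : Bool) :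
    insl y c (List.replicate g false) =
      List.replicate y false ++ c :: List.replicate (g - y) false := by
  unfold insl
  simp [List.take_replicate, List.drop_replicate, h]

theorem insl_replicate_false (y g : ℕ) (h : y ≤ g) :
    insl y false (List.replicate g false) = List.replicate (g + 1) false := by
  rw [insl_replicate y g h]
  rw [show g + 1 = y + (g - y + 1) by omega, List.replicate_add]
  simp [List.replicate_succ]

theorem cnt_replicate (y g : ℕ) : cnt y (List.replicate g false) = 0 := by
  unfold cnt
  simp [List.take_replicate, List.count_replicate]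

theorem T_eq_W (m : ℕ) : ∀ (α g h : ℕ), g ≤ α + h →
    T m α (List.replicate g false) (List.replicate h false) = W m α g h := by
  induction m using Nat.strong_induction_on with
  | _ m ih =>
    intro α g h hgh
    cases m with
    | zero => simp [T, W]
    | succ n =>
      rw [T, W]
      simp only [List.length_replicate, cnt_replicate, true_and]
      -- split each term in the common points and the others
      have split : ∀ y ∈ Finset.range (g + 1), ∀ x ∈ Finset.range (h + 1),
          (if y ≤ x + α then
            T n α (insl y (decide (y < x + α)) (List.replicate g false))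
              (insl x (decide (y < x + α)) (List.replicate h false)) else 0) =
          (if y = x + α then W n α (g + 1) (h + 1) else 0) +
          (if y < α + x then
            ∑ k : Fin (n + 1), n.choose k.val *
              (W k.val α y x * W (n - k.val) (α + x - y) (g - y) (h - x))
          else 0) := by
        intro y hy x hx
        rw [Finset.mem_range] at hy hx
        rcases lt_trichotomy y (x + α) with h1 | h1 | h1
        · rw [if_pos h1.le, if_neg (ne_of_lt h1), if_pos (by omega), zero_add]
          rw [decide_eq_true h1, insl_replicate y g (by omega), insl_replicate x h (by omega)]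
          rw [T_append]
          · rw [Finset.sum_range]
            apply Finset.sum_congr rfl
            intro k _
            have hk := k.2
            simp only [List.length_replicate]
            rw [ih k.val (by omega) α y x (by omega),
              ih (n - k.val) (by omega) _ _ _ (by omega)]
          · simp [List.count_replicate]
          · simp only [List.length_replicate]; omega
        · rw [if_pos h1.le, if_pos h1, if_neg (by omega), add_zero]
          rw [decide_eq_false (by omega), insl_replicate_false y g (by omega),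
            insl_replicate_false x h (by omega)]
          exact ih n (by omega) _ _ _ (by omega)
        · rw [if_neg (by omega), if_neg (by omega), if_neg (by omega)]
      rw [Finset.sum_congr rfl (fun y hy => Finset.sum_congr rfl (split y hy))]
      simp only [Finset.sum_add_distrib]
      congr 1
      -- count the common points
      have inner : ∀ y ∈ Finset.range (g + 1), ∑ x ∈ Finset.range (h + 1),
          (if y = x + α then W n α (g + 1) (h + 1) else 0) =
          if α ≤ y then W n α (g + 1) (h + 1) else 0 := by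
        intro y hy
        rw [Finset.mem_range] at hy
        by_cases hα : α ≤ y
        · rw [if_pos hα]
          rw [Finset.sum_eq_single (y - α)]
          · rw [if_pos (by omega)]
          · intro x _ hx
            rw [if_neg (by omega)]
          · intro hx
            rw [Finset.mem_range] at hx
            omega
        · rw [if_neg hα]
          apply Finset.sum_eq_zero
          intro x _
          rw [if_neg (by omega)]
      rw [Finset.sum_congr rfl inner]
      rw [← Finset.sum_filter, Finset.sum_const, smul_eq_mul]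
      congr 1
      have : (Finset.range (g + 1)).filter (fun y => α ≤ y) = Finset.Ico α (g + 1) := by
        ext y
        simp only [Finset.mem_filter, Finset.mem_range, Finset.mem_Ico]
        omega
      rw [this, Nat.card_Ico]


variable {n : ℕ}

theorem card_pos_lt (u : Perm (Fin n)) (k : ℕ) (hk : k ≤ n) :
    (Finset.univ.filter (fun a : Fin n => (u.symm a).val < k)).card = k := by
  have h1 : (Finset.univ.filter (fun a : Fin n => (u.symm a).val < k)) =
      (Finset.univ.filter (fun i : Fin n => i.val < k)).map u.toEmbedding := by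
    ext a
    simp only [Finset.mem_filter, Finset.mem_univ, true_and, Finset.mem_map,
      Equiv.coe_toEmbedding]
    constructor
    · intro h
      exact ⟨u.symm a, h, by simp⟩
    · rintro ⟨i, hi, rfl⟩
      simpa using hi
  rw [h1, Finset.card_map, Fin.card_filter_val_lt]
  omega

/-- F1 -/
theorem F1 {u v : Perm (Fin n)} {b : Fin n} (hb : v.symm b < u.symm b) :
    ∃ a, u.symm a < u.symm b ∧ v.symm b < v.symm a := by
  by_contra hcon
  push Not at hcon
  have hsub : (Finset.univ.filter (fun a : Fin n => (u.symm a).val < (u.symm b).val)) ⊆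
      (Finset.univ.filter (fun a : Fin n => (v.symm a).val < (v.symm b).val)) := by
    intro a ha
    simp only [Finset.mem_filter, Finset.mem_univ, true_and] at ha ⊢
    have h1 := hcon a ha
    have hne : v.symm a ≠ v.symm b := by
      intro h
      rw [v.symm.injective h] at ha
      exact lt_irrefl _ ha
    exact lt_of_le_of_ne (Fin.le_def.1 h1) (fun h => hne (Fin.ext h))
  have := Finset.card_le_card hsub
  rw [card_pos_lt u _ (u.symm b).2.le, card_pos_lt v _ (v.symm b).2.le] at this
  rw [Fin.lt_def] at hb
  omega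

/-- F2 -/
theorem F2 {u v : Perm (Fin n)} (hg : Good u v) {b b' : Fin n} (hb : v.symm b < u.symm b)
    (h1 : u.symm b < u.symm b') (h2 : v.symm b' < v.symm b) : False := by
  obtain ⟨a, ha1, ha2⟩ := F1 hb
  exact hg ⟨a, b, b', ha1, h1, h2, ha2⟩

/-- F3 -/
theorem F3 {u v : Perm (Fin n)} (hg : Good u v) {a a' : Fin n}
    (h1 : u.symm a < u.symm a') (h2 : v.symm a' < v.symm a) : v.symm a' < u.symm a' := by
  have hsub : (Finset.univ.filter (fun e : Fin n => (v.symm e).val < (v.symm a').val)) ⊂
      (Finset.univ.filter (fun e : Fin n => (u.symm e).val < (u.symm a').val)) := by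
    refine ⟨?_, ?_⟩
    · intro e he
      simp only [Finset.mem_filter, Finset.mem_univ, true_and] at he ⊢
      by_contra hcon
      have hne : u.symm e ≠ u.symm a' := by
        intro h
        rw [u.symm.injective h] at he
        exact lt_irrefl _ he
      have h3 : u.symm a' < u.symm e := by
        rw [Fin.lt_def]
        have : (u.symm e).val ≠ (u.symm a').val := fun h => hne (Fin.ext h)
        omega
      exact hg ⟨a, a', e, h1, h3, he, h2⟩
    · intro hsub
      have : a ∈ Finset.univ.filter (fun e : Fin n => (v.symm e).val < (v.symm a').val) := by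
        apply hsub
        simpa using h1
      simp only [Finset.mem_filter, Finset.mem_univ, true_and] at this
      exact absurd this (not_lt.2 (le_of_lt h2))
  have := Finset.card_lt_card hsub
  rw [card_pos_lt u _ (u.symm a').2.le, card_pos_lt v _ (v.symm a').2.le] at this
  exact this

/-- insertion of the new largest entry at position `x` of the word of `u` -/
def ins (x : Fin (n + 1)) (u : Perm (Fin n)) : Perm (Fin (n + 1)) :=
  (finSuccEquiv' x).trans ((Equiv.optionCongr u).trans (finSuccEquiv' (Fin.last n)).symm)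

theorem ins_at (x : Fin (n + 1)) (u : Perm (Fin n)) : ins x u x = Fin.last n := by
  simp [ins]

theorem ins_succAbove (x : Fin (n + 1)) (u : Perm (Fin n)) (i : Fin n) :
    ins x u (x.succAbove i) = (u i).castSucc := by
  simp [ins]

theorem ins_symm_last (x : Fin (n + 1)) (u : Perm (Fin n)) :
    (ins x u).symm (Fin.last n) = x := by
  rw [Equiv.symm_apply_eq, ins_at]

theorem ins_symm_castSucc (x : Fin (n + 1)) (u : Perm (Fin n)) (a : Fin n) :
    (ins x u).symm a.castSucc = x.succAbove (u.symm a) := by
  rw [Equiv.symm_apply_eq, ins_succAbove]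
  simp

theorem ins_injective : Function.Injective
    (fun p : Fin (n + 1) × Perm (Fin n) => ins p.1 p.2) := by
  rintro ⟨x, u⟩ ⟨y, v⟩ h
  have h' : ins x u = ins y v := h
  have hxy : x = y := by
    rw [← ins_symm_last x u, ← ins_symm_last y v, h']
  subst hxy
  congr 1
  apply Equiv.ext
  intro i
  have := congrArg (fun w : Perm (Fin (n + 1)) => w (x.succAbove i)) h'
  simp only [ins_succAbove] at this
  exact Fin.castSucc_injective n this

theorem ins_bijective : Function.Bijective
    (fun p : Fin (n + 1) × Perm (Fin n) => ins p.1 p.2) := by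
  rw [Fintype.bijective_iff_injective_and_card]
  refine ⟨ins_injective, ?_⟩
  rw [Fintype.card_prod, Fintype.card_perm, Fintype.card_perm, Fintype.card_fin, Fintype.card_fin,
    Nat.factorial_succ]

noncomputable def insEquiv : Fin (n + 1) × Perm (Fin n) ≃ Perm (Fin (n + 1)) :=
  Equiv.ofBijective _ ins_bijective

theorem succAbove_lt_iff (x : Fin (n + 1)) (i : Fin n) : x.succAbove i < x ↔ i.val < x.val := by
  rw [Fin.succAbove_lt_iff_castSucc_lt, Fin.lt_def]
  simp

theorem lt_succAbove_iff (x : Fin (n + 1)) (i : Fin n) : x < x.succAbove i ↔ x.val ≤ i.val := by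
  rw [Fin.lt_succAbove_iff_le_castSucc, Fin.le_def]
  simp

def Good' (u v : Perm (Fin n)) : Prop := WeakLE u v ∧ Good u v

/-- the elements moved to the left, among those in the first `x` entries of `u` -/
def BU (u v : Perm (Fin n)) (x : ℕ) : Finset (Fin n) :=
  Finset.univ.filter (fun a => v.symm a < u.symm a ∧ (u.symm a).val < x)

def BV (u v : Perm (Fin n)) (y : ℕ) : Finset (Fin n) :=
  Finset.univ.filter (fun a => v.symm a < u.symm a ∧ (v.symm a).val < y)

theorem BU_eq_BV {u v : Perm (Fin n)} (hg : Good u v) {x y : ℕ}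
    (h : (BV u v y).card = (BU u v x).card) : BV u v y = BU u v x := by
  by_cases hs : BV u v y ⊆ BU u v x
  · exact Finset.eq_of_subset_of_card_le hs h.ge
  by_cases hs' : BU u v x ⊆ BV u v y
  · exact (Finset.eq_of_subset_of_card_le hs' h.le).symm
  exfalso
  rw [Finset.not_subset] at hs hs'
  obtain ⟨b', h1, h2⟩ := hs
  obtain ⟨b, h3, h4⟩ := hs'
  simp only [BU, BV, Finset.mem_filter, Finset.mem_univ, true_and, not_and, not_lt] at h1 h2 h3 h4
  have h5 := h2 h1.1
  have h6 := h4 h3.1
  refine F2 hg (b := b) (b' := b') h3.1 ?_ ?_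
  · rw [Fin.lt_def]; omega
  · rw [Fin.lt_def]; omega

/-- the admissible insertions -/
theorem good_ins_iff {u v : Perm (Fin n)} (x y : Fin (n + 1)) :
    Good' (ins x u) (ins y v) ↔
      Good' u v ∧ (y.val ≤ x.val ∧ (BV u v y.val).card = (BU u v x.val).card) := by
  constructor
  · rintro ⟨hw, hg⟩
    have hw' : WeakLE u v := by
      intro a b hab
      have := hw a.castSucc b.castSucc ⟨by simpa using hab.1, by
        rw [ins_symm_castSucc, ins_symm_castSucc]
        exact (Fin.strictMono_succAbove x) hab.2⟩
      refine ⟨hab.1, ?_⟩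
      have h2 := this.2
      rw [ins_symm_castSucc, ins_symm_castSucc] at h2
      exact (Fin.strictMono_succAbove y).lt_iff_lt.1 h2
    have hg' : Good u v := by
      rintro ⟨a, b, c, h1, h2, h3, h4⟩
      refine hg ⟨a.castSucc, b.castSucc, c.castSucc, ?_, ?_, ?_, ?_⟩ <;>
      simp only [ins_symm_castSucc]
      · exact (Fin.strictMono_succAbove x) h1
      · exact (Fin.strictMono_succAbove x) h2
      · exact (Fin.strictMono_succAbove y) h3
      · exact (Fin.strictMono_succAbove y) h4
    have key : ∀ a : Fin n, (v.symm a).val < y.val → (u.symm a).val < x.val := by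
      intro a ha
      by_contra hcon
      have h1 : IsInv (ins x u) a.castSucc (Fin.last n) := by
        refine ⟨Fin.castSucc_lt_last a, ?_⟩
        rw [ins_symm_last, ins_symm_castSucc, lt_succAbove_iff]
        omega
      have h2 := (hw _ _ h1).2
      rw [ins_symm_last, ins_symm_castSucc, lt_succAbove_iff] at h2
      omega
    refine ⟨⟨hw', hg'⟩, ?_, ?_⟩
    · have : (Finset.univ.filter (fun a : Fin n => (v.symm a).val < y.val)) ⊆
          (Finset.univ.filter (fun a : Fin n => (u.symm a).val < x.val)) := by
        intro a ha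
        simp only [Finset.mem_filter, Finset.mem_univ, true_and] at ha ⊢
        exact key a ha
      have := Finset.card_le_card this
      rw [card_pos_lt v _ (by omega), card_pos_lt u _ (by omega)] at this
      exact this
    · congr 1
      apply Finset.Subset.antisymm
      · intro b hb
        simp only [BU, BV, Finset.mem_filter, Finset.mem_univ, true_and] at hb ⊢
        exact ⟨hb.1, key b hb.2⟩
      · intro b hb
        simp only [BU, BV, Finset.mem_filter, Finset.mem_univ, true_and] at hb ⊢
        refine ⟨hb.1, ?_⟩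
        by_contra hcon
        obtain ⟨a, ha1, ha2⟩ := F1 hb.1
        refine hg ⟨a.castSucc, b.castSucc, Fin.last n, ?_, ?_, ?_, ?_⟩
        · simp only [ins_symm_castSucc]
          exact (Fin.strictMono_succAbove x) ha1
        · simp only [ins_symm_castSucc, ins_symm_last]
          rw [succAbove_lt_iff]
          exact hb.2
        · simp only [ins_symm_castSucc, ins_symm_last]
          rw [lt_succAbove_iff]
          omega
        · simp only [ins_symm_castSucc]
          exact (Fin.strictMono_succAbove y) ha2
  · rintro ⟨⟨hw, hg⟩, hyx, hcard⟩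
    have hB := BU_eq_BV hg hcard
    have hB' : ∀ a, v.symm a < u.symm a → ((v.symm a).val < y.val ↔ (u.symm a).val < x.val) := by
      intro a ha
      have : a ∈ BV u v y.val ↔ a ∈ BU u v x.val := by rw [hB]
      simp only [BU, BV, Finset.mem_filter, Finset.mem_univ, true_and, ha] at this
      exact this
    have key : ∀ a : Fin n, (v.symm a).val < y.val → (u.symm a).val < x.val := by
      intro a ha
      by_cases hba : v.symm a < u.symm a
      · exact (hB' a hba).1 ha
      · rw [Fin.lt_def] at hba
        omega
    refine ⟨?_, ?_⟩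
    · intro a b hab
      refine ⟨hab.1, ?_⟩
      have h2 := hab.2
      have ha : a ≠ Fin.last n := by
        rintro rfl
        exact absurd hab.1 (not_lt.2 (Fin.le_last b))
      obtain ⟨a', rfl⟩ := Fin.exists_castSucc_eq.2 ha
      by_cases hb : b = Fin.last n
      · subst hb
        rw [ins_symm_last, ins_symm_castSucc, lt_succAbove_iff] at h2 ⊢
        by_contra hcon
        have := key a' (by omega)
        omega
      · obtain ⟨b', rfl⟩ := Fin.exists_castSucc_eq.2 hb
        rw [ins_symm_castSucc, ins_symm_castSucc] at h2 ⊢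
        have h3 := (Fin.strictMono_succAbove x).lt_iff_lt.1 h2
        have h4 := hw a' b' ⟨by simpa using hab.1, h3⟩
        exact (Fin.strictMono_succAbove y) h4.2
    · rintro ⟨a, b, c, h1, h2, h3, h4⟩
      by_cases hc : c = Fin.last n
      · subst hc
        have hb : b ≠ Fin.last n := by rintro rfl; exact lt_irrefl _ h2
        obtain ⟨b', rfl⟩ := Fin.exists_castSucc_eq.2 hb
        have ha : a ≠ Fin.last n := by
          rintro rfl
          exact lt_asymm h1 h2
        obtain ⟨a', rfl⟩ := Fin.exists_castSucc_eq.2 ha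
        simp only [ins_symm_castSucc, ins_symm_last] at h1 h2 h3 h4
        rw [succAbove_lt_iff] at h2
        rw [lt_succAbove_iff] at h3
        have h5 := (Fin.strictMono_succAbove x).lt_iff_lt.1 h1
        have h6 := (Fin.strictMono_succAbove y).lt_iff_lt.1 h4
        have h7 := F3 hg h5 h6
        have := (hB' b' h7).2 h2
        omega
      obtain ⟨c', rfl⟩ := Fin.exists_castSucc_eq.2 hc
      by_cases hb : b = Fin.last n
      · subst hb
        simp only [ins_symm_castSucc, ins_symm_last] at h1 h2 h3 h4
        rw [lt_succAbove_iff] at h2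
        rw [succAbove_lt_iff] at h3
        have := key c' h3
        omega
      obtain ⟨b', rfl⟩ := Fin.exists_castSucc_eq.2 hb
      by_cases ha : a = Fin.last n
      · subst ha
        simp only [ins_symm_castSucc, ins_symm_last] at h1 h2 h3 h4
        rw [lt_succAbove_iff] at h1
        rw [succAbove_lt_iff] at h4
        have := key b' h4
        omega
      obtain ⟨a', rfl⟩ := Fin.exists_castSucc_eq.2 ha
      simp only [ins_symm_castSucc] at h1 h2 h3 h4
      exact hg ⟨a', b', c', (Fin.strictMono_succAbove x).lt_iff_lt.1 h1,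
        (Fin.strictMono_succAbove x).lt_iff_lt.1 h2,
        (Fin.strictMono_succAbove y).lt_iff_lt.1 h3,
        (Fin.strictMono_succAbove y).lt_iff_lt.1 h4⟩

/-- colour word of `v` -/
def cV (u v : Perm (Fin n)) : List Bool := List.ofFn (fun i : Fin n => decide (i < u.symm (v i)))

/-- colour word of `u` -/
def cU (u v : Perm (Fin n)) : List Bool := List.ofFn (fun j : Fin n => decide (v.symm (u j) < j))

theorem count_take_ofFn (f : Fin n → Bool) (x : ℕ) :
    ((List.ofFn f).take x).count true =
      (Finset.univ.filter (fun i : Fin n => f i = true ∧ i.val < x)).card := by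
  induction n generalizing x with
  | zero => simp
  | succ n ih =>
    rw [List.ofFn_succ]
    cases x with
    | zero => simp
    | succ x =>
      rw [List.take_succ_cons, List.count_cons, ih]
      rw [Fin.card_filter_univ_succ]
      simp only [Fin.val_succ, add_lt_add_iff_right, Fin.val_zero, Nat.zero_lt_succ, and_true]
      cases h : f 0
      · simp
      · simp

theorem cnt_cV (u v : Perm (Fin n)) (y : ℕ) : cnt y (cV u v) = (BV u v y).card := by
  unfold cnt cV
  rw [count_take_ofFn]
  have : BV u v y = (Finset.univ.filter (fun i : Fin n =>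
      decide (i < u.symm (v i)) = true ∧ i.val < y)).map v.toEmbedding := by
    ext a
    simp only [BV, Finset.mem_filter, Finset.mem_univ, true_and, Finset.mem_map,
      Equiv.coe_toEmbedding, decide_eq_true_eq]
    constructor
    · intro h
      exact ⟨v.symm a, by simpa using h, by simp⟩
    · rintro ⟨i, hi, rfl⟩
      simpa using hi
  rw [this, Finset.card_map]

theorem cnt_cU (u v : Perm (Fin n)) (x : ℕ) : cnt x (cU u v) = (BU u v x).card := by
  unfold cnt cU
  rw [count_take_ofFn]
  have : BU u v x = (Finset.univ.filter (fun j : Fin n =>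
      decide (v.symm (u j) < j) = true ∧ j.val < x)).map u.toEmbedding := by
    ext a
    simp only [BU, Finset.mem_filter, Finset.mem_univ, true_and, Finset.mem_map,
      Equiv.coe_toEmbedding, decide_eq_true_eq]
    constructor
    · intro h
      exact ⟨u.symm a, by simpa using h, by simp⟩
    · rintro ⟨i, hi, rfl⟩
      simpa using hi
  rw [this, Finset.card_map]

theorem ofFn_insert (y : Fin (n + 1)) (c : Bool) (f : Fin (n + 1) → Bool) (g : Fin n → Bool)
    (h1 : f y = c) (h2 : ∀ i, f (y.succAbove i) = g i) :
    List.ofFn f = insl y.val c (List.ofFn g) := by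
  apply List.ext_getElem
  · rw [insl_length]; simp
  · intro k hk1 hk2
    simp only [List.length_ofFn] at hk1
    rw [List.getElem_ofFn]
    unfold insl
    rcases lt_trichotomy k y.val with h | h | h
    · rw [List.getElem_append_left (by simp; omega)]
      rw [List.getElem_take, List.getElem_ofFn, ← h2]
      congr 1
      rw [Fin.succAbove_of_castSucc_lt _ _ (by rw [Fin.lt_def]; exact h)]
      rfl
    · subst h
      rw [List.getElem_append_right (by simp)]
      simp only [List.length_take, List.length_ofFn]
      have : y.val - min y.val n = 0 := by omega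
      simp only [this, List.getElem_cons_zero]
      exact h1
    · rw [List.getElem_append_right (by simp; omega)]
      simp only [List.length_take, List.length_ofFn]
      have e : k - min y.val n = (k - 1 - y.val) + 1 := by omega
      simp only [e, List.getElem_cons_succ, List.getElem_drop, List.getElem_ofFn]
      rw [← h2]
      congr 1
      rw [Fin.succAbove_of_le_castSucc _ _ (by
        rw [Fin.le_def]; simp only [Fin.val_castSucc]; omega)]
      ext
      simp only [Fin.val_succ]
      omega

theorem color_ins {u v : Perm (Fin n)} (hg : Good u v) {x y : Fin (n + 1)}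
    (hyx : y.val ≤ x.val) (hcard : (BV u v y.val).card = (BU u v x.val).card) (a : Fin n) :
    y.succAbove (v.symm a) < x.succAbove (u.symm a) ↔ v.symm a < u.symm a := by
  have hB := BU_eq_BV hg hcard
  have hB' : ∀ a, v.symm a < u.symm a → ((v.symm a).val < y.val ↔ (u.symm a).val < x.val) := by
    intro a ha
    have : a ∈ BV u v y.val ↔ a ∈ BU u v x.val := by rw [hB]
    simp only [BU, BV, Finset.mem_filter, Finset.mem_univ, true_and, ha] at this
    exact this
  have e1 : (y.succAbove (v.symm a)).val =
      (v.symm a).val + if (v.symm a).val < y.val then 0 else 1 := by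
    split_ifs with h
    · rw [Fin.succAbove_of_castSucc_lt _ _ (by rw [Fin.lt_def]; exact h)]
      rfl
    · rw [Fin.succAbove_of_le_castSucc _ _ (by rw [Fin.le_def]; simp; omega)]
      simp
  have e2 : (x.succAbove (u.symm a)).val =
      (u.symm a).val + if (u.symm a).val < x.val then 0 else 1 := by
    split_ifs with h
    · rw [Fin.succAbove_of_castSucc_lt _ _ (by rw [Fin.lt_def]; exact h)]
      rfl
    · rw [Fin.succAbove_of_le_castSucc _ _ (by rw [Fin.le_def]; simp; omega)]
      simp
  rw [Fin.lt_def, e1, e2]
  by_cases hba : v.symm a < u.symm a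
  · have h1 := hB' a hba
    rw [Fin.lt_def] at hba ⊢
    by_cases h2 : (v.symm a).val < y.val
    · rw [if_pos h2, if_pos (h1.1 h2)]
      omega
    · rw [if_neg h2, if_neg (fun h => h2 (h1.2 h))]
      omega
  · rw [Fin.lt_def] at hba ⊢
    constructor
    · intro h
      exfalso
      split_ifs at h <;> omega
    · intro h
      exact absurd h hba

theorem cV_ins {u v : Perm (Fin n)} (hg : Good u v) {x y : Fin (n + 1)}
    (hyx : y.val ≤ x.val) (hcard : (BV u v y.val).card = (BU u v x.val).card) :
    cV (ins x u) (ins y v) = insl y.val (decide (y.val < x.val)) (cV u v) := by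
  unfold cV
  apply ofFn_insert
  · rw [ins_at, ins_symm_last, decide_eq_decide, Fin.lt_def]
  · intro i
    rw [ins_succAbove, ins_symm_castSucc, decide_eq_decide]
    have := color_ins hg hyx hcard (v i)
    simpa using this

theorem cU_ins {u v : Perm (Fin n)} (hg : Good u v) {x y : Fin (n + 1)}
    (hyx : y.val ≤ x.val) (hcard : (BV u v y.val).card = (BU u v x.val).card) :
    cU (ins x u) (ins y v) = insl x.val (decide (y.val < x.val)) (cU u v) := by
  unfold cU
  apply ofFn_insert
  · rw [ins_at, ins_symm_last, decide_eq_decide, Fin.lt_def]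
  · intro i
    rw [ins_succAbove, ins_symm_castSucc, decide_eq_decide]
    have := color_ins hg hyx hcard (u i)
    simpa using this

open Classical in
noncomputable def A (n m : ℕ) : ℕ :=
  ∑ u : Perm (Fin n), ∑ v : Perm (Fin n), if Good' u v then T m 0 (cV u v) (cU u v) else 0

theorem A_step (n m : ℕ) : A (n + 1) m = A n (m + 1) := by
  classical
  unfold A
  rw [← Equiv.sum_comp insEquiv, Fintype.sum_prod_type, Finset.sum_comm]
  apply Finset.sum_congr rfl
  intro u _
  have e1 : ∀ x : Fin (n + 1), (∑ v' : Perm (Fin (n + 1)),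
      if Good' (insEquiv (x, u)) v' then
        T m 0 (cV (insEquiv (x, u)) v') (cU (insEquiv (x, u)) v') else 0) =
      ∑ v : Perm (Fin n), ∑ y : Fin (n + 1), if Good' (ins x u) (ins y v) then
        T m 0 (cV (ins x u) (ins y v)) (cU (ins x u) (ins y v)) else 0 := by
    intro x
    rw [← Equiv.sum_comp insEquiv, Fintype.sum_prod_type, Finset.sum_comm]
    rfl
  rw [Finset.sum_congr rfl (fun x _ => e1 x), Finset.sum_comm]
  apply Finset.sum_congr rfl
  intro v _
  by_cases hg : Good' u v
  · rw [if_pos hg, T, Finset.sum_comm]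
    have lV : (cV u v).length = n := by simp [cV]
    have lU : (cU u v).length = n := by simp [cU]
    rw [lV, lU, Finset.sum_range]
    apply Finset.sum_congr rfl
    intro y _
    rw [Finset.sum_range]
    apply Finset.sum_congr rfl
    intro x _
    rw [cnt_cV, cnt_cU, add_zero]
    by_cases h : y.val ≤ x.val ∧ (BV u v y.val).card = (BU u v x.val).card
    · rw [if_pos ((good_ins_iff x y).2 ⟨hg, h⟩), if_pos ⟨h.2, h.1⟩, cV_ins hg.2 h.1 h.2,
        cU_ins hg.2 h.1 h.2]
    · rw [if_neg (fun h' => h ((good_ins_iff x y).1 h').2), if_neg (fun h' => h ⟨h'.2, h'.1⟩)]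
  · rw [if_neg hg]
    apply Finset.sum_eq_zero
    intro x _
    apply Finset.sum_eq_zero
    intro y _
    rw [if_neg (fun h' => hg ((good_ins_iff _ _).1 h').1)]

theorem A_zero (n : ℕ) : A n 0 = A 0 n := by
  have : ∀ m k, A (m + k) 0 = A m k := by
    intro m k
    induction k generalizing m with
    | zero => rfl
    | succ k ih =>
      rw [← A_step, ← ih (m + 1)]
      congr 1
      ring
  have h := this 0 n
  rwa [zero_add] at h

theorem A_zero_left (n : ℕ) : A 0 n = T n 0 [] [] := by
  classical
  unfold A
  have hg : ∀ u v : Perm (Fin 0), Good' u v := fun u v => ⟨fun a => a.elim0, fun ⟨a, _⟩ => a.elim0⟩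
  simp only [hg, if_true]
  rw [Fintype.sum_unique, Fintype.sum_unique]
  simp [cV, cU]

theorem A_zero_right (n : ℕ) :
    A n 0 = Nat.card {p : Perm (Fin n) × Perm (Fin n) // Good' p.1 p.2} := by
  classical
  unfold A
  rw [Nat.card_eq_fintype_card, Fintype.card_subtype, ← Fintype.sum_prod_type',
    Finset.card_filter]
  simp only [T]

/-- The number of distributive intervals of the weak order is given by the recurrence. -/
theorem result (n : ℕ) : d n = W n 0 0 0 := by
  have h1 : d n = Nat.card {p : Perm (Fin n) × Perm (Fin n) // Good' p.1 p.2} := by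
    unfold d
    apply Nat.card_congr
    apply Equiv.subtypeEquivRight
    rintro ⟨u, v⟩
    constructor
    · rintro ⟨h1, h2⟩
      exact ⟨h1, (dist_iff h1).1 h2⟩
    · rintro ⟨h1, h2⟩
      exact ⟨h1, (dist_iff h1).2 h2⟩
  rw [h1, ← A_zero_right, A_zero, A_zero_left]
  exact T_eq_W n 0 0 0 le_rfl

end Pool.Agent.Results.MP_1660ca_co.DistributiveCount
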