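import Mathlib

namespace Pool.Agent.Results.MP_1660ca_co.DistributiveIff

open Equiv

/-- `(a, b)` is an inversion of the permutation `w` of `Fin n`: `a < b`, and `b` occurs to the
left of `a` in the word `w(0) w(1) ... w(n-1)` (the position of a value `x` is `w.symm x`). -/
def IsInv {n : ℕ} (w : Perm (Fin n)) (a b : Fin n) : Prop :=
  a < b ∧ w.symm b < w.symm a

/-- The weak order: containment of the inversion sets. -/
def WeakLE {n : ℕ} (u v : Perm (Fin n)) : Prop :=
  ∀ a b, IsInv u a b → IsInv v a b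

/-- The interval `[u, v]` of the weak order. -/
def Interval {n : ℕ} (u v : Perm (Fin n)) : Type :=
  {w : Perm (Fin n) // WeakLE u w ∧ WeakLE w v}

/-- `[u, v]` with the order induced by the weak order is a distributive lattice. -/
def IsDistributiveInterval {n : ℕ} (u v : Perm (Fin n)) : Prop :=
  ∃ L : DistribLattice (Interval u v), ∀ x y : Interval u v, L.le x y ↔ WeakLE x.1 y.1

/-- `w` avoids the pattern 321. -/
def Avoids321 {n : ℕ} (w : Perm (Fin n)) : Prop :=
  ¬ ∃ i j k : Fin n, i < j ∧ j < k ∧ w k < w j ∧ w j < w i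

/-- No `a, b, c` in this order in the word of `u` and in the reverse order in that of `v`. -/
def Good {n : ℕ} (u v : Perm (Fin n)) : Prop :=
  ¬ ∃ a b c : Fin n, u.symm a < u.symm b ∧ u.symm b < u.symm c ∧
    v.symm c < v.symm b ∧ v.symm b < v.symm a

theorem inv_of_inv {n : ℕ} {u v : Perm (Fin n)} (h : WeakLE u v) {a b : Fin n}
    (h1 : u.symm a < u.symm b) (h2 : v.symm b < v.symm a) : a < b := by
  by_contra hab
  have hne : a ≠ b := by rintro rfl; exact lt_irrefl _ h1
  have hlt : b < a := lt_of_le_of_ne (not_lt.1 hab) (Ne.symm hne)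
  exact lt_asymm (h b a ⟨hlt, h1⟩).2 h2

theorem isInv_trans {n : ℕ} {w : Perm (Fin n)} {a b c : Fin n} (h1 : IsInv w a b)
    (h2 : IsInv w b c) : IsInv w a c := ⟨h1.1.trans h2.1, h2.2.trans h1.2⟩

theorem isInv_cotrans {n : ℕ} {w : Perm (Fin n)} {a b c : Fin n} (hab : a < b) (hbc : b < c)
    (h : IsInv w a c) : IsInv w a b ∨ IsInv w b c := by
  rcases lt_trichotomy (w.symm b) (w.symm a) with h1 | h1 | h1
  · exact Or.inl ⟨hab, h1⟩
  · exact absurd (w.symm.injective h1) (ne_of_gt hab)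
  · exact Or.inr ⟨hbc, h.2.trans h1⟩

theorem weakLE_antisymm {n : ℕ} {u v : Perm (Fin n)} (h1 : WeakLE u v) (h2 : WeakLE v u) :
    u = v := by
  have key : ∀ a b : Fin n, u.symm a < u.symm b → v.symm a < v.symm b := by
    intro a b hab
    by_contra hv
    have hne : a ≠ b := by rintro rfl; exact lt_irrefl _ hab
    have hv' : v.symm b < v.symm a :=
      lt_of_le_of_ne (not_lt.1 hv) (fun h => hne (v.symm.injective h).symm)
    rcases lt_or_gt_of_ne hne with hlt | hlt
    · exact lt_asymm hab (h2 a b ⟨hlt, hv'⟩).2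
    · exact lt_asymm hv' (h1 b a ⟨hlt, hab⟩).2
  have mono : StrictMono (fun i : Fin n => v.symm (u i)) := by
    intro i j hij
    exact key _ _ (by simpa using hij)
  have h : ∀ i, v.symm (u i) = i := by
    have := (Subsingleton.elim (⟨⟨(u.trans v.symm), by
      intro i j; exact mono.le_iff_le⟩⟩ : Nonempty (Fin n ≃o Fin n)) ⟨OrderIso.refl _⟩)
    intro i
    have e : (⟨(u.trans v.symm), by
      intro i j; exact mono.le_iff_le⟩ : Fin n ≃o Fin n) = OrderIso.refl _ :=
      Subsingleton.elim _ _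
    exact congrArg (fun f : Fin n ≃o Fin n => f i) e
  ext i
  have := h i
  have h' : u i = v i := by
    have := congrArg v this
    simpa using this
  rw [h']

/-- a strict total order on `Fin n` is the order of the positions for a permutation -/
theorem exists_perm {n : ℕ} (r : Fin n → Fin n → Prop) (hirr : ∀ a, ¬ r a a)
    (htr : ∀ a b c, r a b → r b c → r a c) (htot : ∀ a b, a ≠ b → r a b ∨ r b a) :
    ∃ w : Perm (Fin n), ∀ a b, w.symm a < w.symm b ↔ r a b := by
  classical
  let f : Fin n → ℕ := fun a => (Finset.univ.filter (fun b => r b a)).card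
  have hlt : ∀ a b, r a b → f a < f b := by
    intro a b hab
    apply Finset.card_lt_card
    refine ⟨?_, ?_⟩
    · intro c hc
      simp only [Finset.mem_filter, Finset.mem_univ, true_and] at hc ⊢
      exact htr _ _ _ hc hab
    · intro hsub
      have : a ∈ Finset.univ.filter (fun c => r c a) := hsub (by simpa using hab)
      simp only [Finset.mem_filter, Finset.mem_univ, true_and] at this
      exact hirr a this
  have hbd : ∀ a, f a < n := by
    intro a
    calc f a < (Finset.univ : Finset (Fin n)).card := by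
          apply Finset.card_lt_card
          refine ⟨Finset.filter_subset _ _, ?_⟩
          intro hsub
          have := hsub (Finset.mem_univ a)
          simp only [Finset.mem_filter, Finset.mem_univ, true_and] at this
          exact hirr a this
      _ = n := by simp
  have hinj : Function.Injective (fun a => (⟨f a, hbd a⟩ : Fin n)) := by
    intro a b hab
    by_contra hne
    have h' : f a = f b := by simpa using hab
    rcases htot a b hne with h | h
    · exact absurd h' (ne_of_lt (hlt _ _ h))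
    · exact absurd h' (ne_of_gt (hlt _ _ h))
  let e : Perm (Fin n) := Equiv.ofBijective _ (Finite.injective_iff_bijective.1 hinj)
  refine ⟨e.symm, ?_⟩
  intro a b
  have he : ∀ a, (e.symm.symm a : Fin n).val = f a := by intro a; rfl
  constructor
  · intro h
    have h1 : f a < f b := by
      rw [← he a, ← he b]; exact h
    have hne : a ≠ b := by rintro rfl; exact lt_irrefl _ h1
    rcases htot a b hne with h2 | h2
    · exact h2
    · exact absurd (hlt _ _ h2) (not_lt.2 h1.le)
  · intro h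
    have : f a < f b := hlt _ _ h
    rw [← he a, ← he b] at this
    exact this

/-- a biclosed set of pairs is the inversion set of a permutation -/
theorem exists_perm_inv {n : ℕ} (S : Fin n → Fin n → Prop) (hS : ∀ a b, S a b → a < b)
    (htr : ∀ a b c, S a b → S b c → S a c)
    (hco : ∀ a b c, a < b → b < c → S a c → S a b ∨ S b c) :
    ∃ w : Perm (Fin n), ∀ a b, IsInv w a b ↔ S a b := by
  classical
  obtain ⟨w, hw⟩ := exists_perm (fun a b => (a < b ∧ ¬ S a b) ∨ (b < a ∧ S b a))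
    (by
      intro a h
      rcases h with h | h
      · exact lt_irrefl _ h.1
      · exact lt_irrefl _ h.1)
    (by
      intro a b c h1 h2
      rcases h1 with ⟨h1, h1'⟩ | ⟨h1, h1'⟩ <;> rcases h2 with ⟨h2, h2'⟩ | ⟨h2, h2'⟩
      · refine Or.inl ⟨h1.trans h2, fun h => ?_⟩
        rcases hco a b c h1 h2 h with h3 | h3
        · exact h1' h3
        · exact h2' h3
      · rcases lt_trichotomy a c with h3 | h3 | h3
        · exact Or.inl ⟨h3, fun h => h1' (htr a c b h h2')⟩
        · subst h3; exact absurd h2' h1'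
        · refine Or.inr ⟨h3, ?_⟩
          rcases hco c a b h3 h1 h2' with h4 | h4
          · exact h4
          · exact absurd h4 h1'
      · rcases lt_trichotomy a c with h3 | h3 | h3
        · refine Or.inl ⟨h3, fun h => h2' (htr b a c h1' h)⟩
        · subst h3; exact absurd h1' h2'
        · refine Or.inr ⟨h3, ?_⟩
          rcases hco b c a h2 h3 h1' with h4 | h4
          · exact absurd h4 h2'
          · exact h4
      · exact Or.inr ⟨h2.trans h1, htr _ _ _ h2' h1'⟩)
    (by
      intro a b hab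
      rcases lt_or_gt_of_ne hab with h | h
      · by_cases hs : S a b
        · exact Or.inr (Or.inr ⟨h, hs⟩)
        · exact Or.inl (Or.inl ⟨h, hs⟩)
      · by_cases hs : S b a
        · exact Or.inl (Or.inr ⟨h, hs⟩)
        · exact Or.inr (Or.inl ⟨h, hs⟩))
  refine ⟨w, fun a b => ?_⟩
  unfold IsInv
  rw [hw]
  constructor
  · rintro ⟨h, h' | h'⟩
    · exact absurd h (not_lt.2 h'.1.le)
    · exact h'.2
  · intro h
    exact ⟨hS _ _ h, Or.inr ⟨hS _ _ h, h⟩⟩

theorem good_iff {n : ℕ} {u v : Perm (Fin n)} (h : WeakLE u v) :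
    Good u v ↔ ¬ ∃ a b c : Fin n, IsInv v a b ∧ ¬ IsInv u a b ∧ IsInv v b c ∧ ¬ IsInv u b c := by
  unfold Good
  rw [not_iff_not]
  constructor
  · rintro ⟨a, b, c, h1, h2, h3, h4⟩
    refine ⟨a, b, c, ⟨inv_of_inv h h1 h4, h4⟩, fun h' => lt_asymm h'.2 h1,
      ⟨inv_of_inv h h2 h3, h3⟩, fun h' => lt_asymm h'.2 h2⟩
  · rintro ⟨a, b, c, h1, h2, h3, h4⟩
    refine ⟨a, b, c, ?_, ?_, h3.2, h1.2⟩
    · rcases lt_trichotomy (u.symm a) (u.symm b) with h5 | h5 | h5
      · exact h5
      · exact absurd (u.symm.injective h5) (ne_of_lt h1.1)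
      · exact absurd ⟨h1.1, h5⟩ h2
    · rcases lt_trichotomy (u.symm b) (u.symm c) with h5 | h5 | h5
      · exact h5
      · exact absurd (u.symm.injective h5) (ne_of_lt h3.1)
      · exact absurd ⟨h3.1, h5⟩ h4

theorem dist_of_good {n : ℕ} {u v : Perm (Fin n)} (huv : WeakLE u v) (hg : Good u v) :
    IsDistributiveInterval u v := by
  classical
  rw [good_iff huv] at hg
  have hsup : ∀ x y : Interval u v, ∃ z : Interval u v,
      ∀ a b, IsInv z.1 a b ↔ IsInv x.1 a b ∨ IsInv y.1 a b := by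
    rintro ⟨x, hx1, hx2⟩ ⟨y, hy1, hy2⟩
    obtain ⟨w, hw⟩ := exists_perm_inv (fun a b => IsInv x a b ∨ IsInv y a b)
      (by rintro a b (h | h) <;> exact h.1)
      (by
        rintro a b c (h1 | h1) (h2 | h2)
        · exact Or.inl (isInv_trans h1 h2)
        · by_cases h3 : IsInv y a b
          · exact Or.inr (isInv_trans h3 h2)
          by_cases h4 : IsInv x b c
          · exact Or.inl (isInv_trans h1 h4)
          exact absurd ⟨a, b, c, hx2 _ _ h1, fun h => h3 (hy1 _ _ h), hy2 _ _ h2,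
            fun h => h4 (hx1 _ _ h)⟩ hg
        · by_cases h3 : IsInv x a b
          · exact Or.inl (isInv_trans h3 h2)
          by_cases h4 : IsInv y b c
          · exact Or.inr (isInv_trans h1 h4)
          exact absurd ⟨a, b, c, hy2 _ _ h1, fun h => h3 (hx1 _ _ h), hx2 _ _ h2,
            fun h => h4 (hy1 _ _ h)⟩ hg
        · exact Or.inr (isInv_trans h1 h2))
      (by
        rintro a b c hab hbc (h | h)
        · rcases isInv_cotrans hab hbc h with h | h
          · exact Or.inl (Or.inl h)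
          · exact Or.inr (Or.inl h)
        · rcases isInv_cotrans hab hbc h with h | h
          · exact Or.inl (Or.inr h)
          · exact Or.inr (Or.inr h))
    refine ⟨⟨w, fun a b h => (hw a b).2 (Or.inl (hx1 a b h)), fun a b h => ?_⟩, hw⟩
    rcases (hw a b).1 h with h | h
    · exact hx2 _ _ h
    · exact hy2 _ _ h
  have hinf : ∀ x y : Interval u v, ∃ z : Interval u v,
      ∀ a b, IsInv z.1 a b ↔ IsInv x.1 a b ∧ IsInv y.1 a b := by
    rintro ⟨x, hx1, hx2⟩ ⟨y, hy1, hy2⟩
    obtain ⟨w, hw⟩ := exists_perm_inv (fun a b => IsInv x a b ∧ IsInv y a b)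
      (by rintro a b ⟨h, -⟩; exact h.1)
      (by
        rintro a b c ⟨h1, h1'⟩ ⟨h2, h2'⟩
        exact ⟨isInv_trans h1 h2, isInv_trans h1' h2'⟩)
      (by
        rintro a b c hab hbc ⟨h, h'⟩
        by_contra hcon
        push Not at hcon
        rcases isInv_cotrans hab hbc h with h1 | h1 <;>
        rcases isInv_cotrans hab hbc h' with h2 | h2
        · exact hcon.1 h1 h2
        · have h3 : ¬ IsInv y a b := fun h3 => hcon.1 h1 h3
          have h4 : ¬ IsInv x b c := fun h4 => hcon.2 h4 h2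
          exact hg ⟨a, b, c, hx2 _ _ h1, fun h => h3 (hy1 _ _ h), hy2 _ _ h2,
            fun h => h4 (hx1 _ _ h)⟩
        · have h3 : ¬ IsInv x a b := fun h3 => hcon.1 h3 h2
          have h4 : ¬ IsInv y b c := fun h4 => hcon.2 h1 h4
          exact hg ⟨a, b, c, hy2 _ _ h2, fun h => h3 (hx1 _ _ h), hx2 _ _ h1,
            fun h => h4 (hy1 _ _ h)⟩
        · exact hcon.2 h1 h2)
    refine ⟨⟨w, fun a b h => (hw a b).2 ⟨hx1 a b h, hy1 a b h⟩, fun a b h => ?_⟩, hw⟩
    exact hx2 _ _ ((hw a b).1 h).1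
  choose sup hsup using hsup
  choose inf hinf using hinf
  let L : DistribLattice (Interval u v) :=
    { le := fun x y => WeakLE x.1 y.1
      le_refl := fun x a b h => h
      le_trans := fun x y z h1 h2 a b h => h2 _ _ (h1 _ _ h)
      le_antisymm := fun x y h1 h2 => Subtype.ext (weakLE_antisymm h1 h2)
      sup := sup
      le_sup_left := fun x y a b h => (hsup x y a b).2 (Or.inl h)
      le_sup_right := fun x y a b h => (hsup x y a b).2 (Or.inr h)
      sup_le := fun x y z h1 h2 a b h => by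
        rcases (hsup x y a b).1 h with h | h
        · exact h1 _ _ h
        · exact h2 _ _ h
      inf := inf
      inf_le_left := fun x y a b h => ((hinf x y a b).1 h).1
      inf_le_right := fun x y a b h => ((hinf x y a b).1 h).2
      le_inf := fun x y z h1 h2 a b h => (hinf y z a b).2 ⟨h1 _ _ h, h2 _ _ h⟩
      le_sup_inf := fun x y z a b h => by
        have h1 := (hinf (sup x y) (sup x z) a b).1 h
        have h2 := (hsup x y a b).1 h1.1
        have h3 := (hsup x z a b).1 h1.2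
        refine (hsup x (inf y z) a b).2 ?_
        rcases h2 with h2 | h2
        · exact Or.inl h2
        rcases h3 with h3 | h3
        · exact Or.inl h3
        exact Or.inr ((hinf y z a b).2 ⟨h2, h3⟩) }
  exact ⟨L, fun x y => Iff.rfl⟩
theorem adj_swap {n : ℕ} (w : Perm (Fin n)) (i j : Fin n) (hij : j.val = i.val + 1)
    (hw : w j < w i) (a b : Fin n) :
    IsInv (w * swap i j) a b ↔ IsInv w a b ∧ ¬ (a = w j ∧ b = w i) := by
  have hs : ∀ x, (w * swap i j).symm x = swap i j (w.symm x) := by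
    intro x
    rw [Equiv.symm_apply_eq]
    simp
  unfold IsInv
  rw [hs, hs]
  have ha : ∀ (k : Fin n) (x : Fin n), x = w k ↔ w.symm x = k := by
    intro k x
    rw [Equiv.symm_apply_eq]
  rw [ha j a, ha i b]
  by_cases hab : a < b
  swap
  · simp [hab]
  have hne : w.symm a ≠ w.symm b := fun h => (ne_of_lt hab) (w.symm.injective h)
  have hwij : ¬ (w.symm a = i ∧ w.symm b = j) := by
    rintro ⟨h1, h2⟩
    rw [← ha] at h1 h2
    subst h1 h2
    exact lt_asymm hab hw
  generalize w.symm a = p at *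
  generalize w.symm b = q at *
  rw [Equiv.swap_apply_def, Equiv.swap_apply_def]
  simp only [Fin.lt_def, Fin.ext_iff, ne_eq] at *
  simp only [hab, true_and]
  split_ifs <;> omega

theorem exists_adj_descent (f : ℕ → ℕ) (p q : ℕ) (hpq : p < q) (h : f q < f p) :
    ∃ i, p ≤ i ∧ i < q ∧ f (i + 1) < f i := by
  by_contra hcon
  push Not at hcon
  have : ∀ k, p ≤ k → k ≤ q → f p ≤ f k := by
    intro k hk
    induction k, hk using Nat.le_induction with
    | base => intro _; exact le_rfl
    | succ m hm ih =>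
      intro hq
      exact (ih (by omega)).trans (hcon m hm (by omega))
  exact absurd h (not_lt.2 (this q hpq.le le_rfl))

theorem not_dist_of_pattern {n : ℕ} {u v : Perm (Fin n)} {p q r : Fin n}
    (hq : q.val = p.val + 1) (hr : r.val = q.val + 1) {v' : Perm (Fin n)}
    (hv' : WeakLE v' v) (h1 : v' r < v' q) (h2 : v' q < v' p) (huv' : WeakLE u v')
    (h3 : ¬ IsInv u (v' r) (v' q)) (h4 : ¬ IsInv u (v' q) (v' p)) :
    ¬ IsDistributiveInterval u v := by
  obtain ⟨a, ha⟩ : ∃ a, v' r = a := ⟨_, rfl⟩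
  obtain ⟨b, hb⟩ : ∃ b, v' q = b := ⟨_, rfl⟩
  obtain ⟨c, hc⟩ : ∃ c, v' p = c := ⟨_, rfl⟩
  rw [ha, hb] at h1
  rw [hb, hc] at h2
  rw [ha, hb] at h3
  rw [hb, hc] at h4
  have hpq : p ≠ q := by intro h; rw [h] at hq; omega
  have hqr : q ≠ r := by intro h; rw [h] at hr; omega
  have hpr : p ≠ r := by intro h; rw [h] at hq; omega
  have h5 : ¬ IsInv u a c := fun h => by
    rcases isInv_cotrans h1 h2 h with h | h
    · exact h3 h
    · exact h4 h
  set t1 := v' * swap p q with ht1
  set t2 := t1 * swap q r with ht2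
  set t3 := t2 * swap p q with ht3
  set s1 := v' * swap q r with hs1
  set s2 := s1 * swap p q with hs2
  have e1 : t1 p = b ∧ t1 q = c ∧ t1 r = a := by
    refine ⟨?_, ?_, ?_⟩
    · simp [ht1, hb]
    · simp [ht1, hc]
    · rw [ht1, Perm.mul_apply, swap_apply_of_ne_of_ne (Ne.symm hpr) (Ne.symm hqr), ha]
  have e2 : t2 p = b ∧ t2 q = a ∧ t2 r = c := by
    refine ⟨?_, ?_, ?_⟩
    · rw [ht2, Perm.mul_apply, swap_apply_of_ne_of_ne hpq hpr, e1.1]
    · simp [ht2, e1.2.2]
    · simp [ht2, e1.2.1]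
  have e3 : s1 p = c ∧ s1 q = a ∧ s1 r = b := by
    refine ⟨?_, ?_, ?_⟩
    · rw [hs1, Perm.mul_apply, swap_apply_of_ne_of_ne hpq hpr, hc]
    · simp [hs1, ha]
    · simp [hs1, hb]
  have i1 : ∀ x y, IsInv t1 x y ↔ IsInv v' x y ∧ ¬ (x = b ∧ y = c) := by
    intro x y
    have := adj_swap v' p q hq (by rw [hb, hc]; exact h2) x y
    rw [hb, hc] at this
    exact this
  have i2 : ∀ x y, IsInv t2 x y ↔ IsInv t1 x y ∧ ¬ (x = a ∧ y = c) := by
    intro x y
    have := adj_swap t1 q r hr (by rw [e1.2.1, e1.2.2]; exact h1.trans h2) x y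
    rw [e1.2.1, e1.2.2] at this
    exact this
  have i3 : ∀ x y, IsInv t3 x y ↔ IsInv t2 x y ∧ ¬ (x = a ∧ y = b) := by
    intro x y
    have := adj_swap t2 p q hq (by rw [e2.1, e2.2.1]; exact h1) x y
    rw [e2.1, e2.2.1] at this
    exact this
  have i4 : ∀ x y, IsInv s1 x y ↔ IsInv v' x y ∧ ¬ (x = a ∧ y = b) := by
    intro x y
    have := adj_swap v' q r hr (by rw [ha, hb]; exact h1) x y
    rw [ha, hb] at this
    exact this
  have i5 : ∀ x y, IsInv s2 x y ↔ IsInv s1 x y ∧ ¬ (x = a ∧ y = c) := by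
    intro x y
    have := adj_swap s1 p q hq (by rw [e3.1, e3.2.1]; exact h1.trans h2) x y
    rw [e3.1, e3.2.1] at this
    exact this
  -- basic facts on inversions of v'
  have v'a : v'.symm a = r := by rw [← ha]; simp
  have v'b : v'.symm b = q := by rw [← hb]; simp
  have v'c : v'.symm c = p := by rw [← hc]; simp
  have hpq' : p < q := by rw [Fin.lt_def]; omega
  have hqr' : q < r := by rw [Fin.lt_def]; omega
  have vab : IsInv v' a b := ⟨h1, by rw [v'a, v'b]; exact hqr'⟩
  have vbc : IsInv v' b c := ⟨h2, by rw [v'b, v'c]; exact hpq'⟩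
  have vac : IsInv v' a c := isInv_trans vab vbc
  have hu3 : WeakLE u t3 := by
    intro x y hxy
    rw [i3, i2, i1]
    refine ⟨⟨⟨huv' _ _ hxy, ?_⟩, ?_⟩, ?_⟩
    · rintro ⟨rfl, rfl⟩; exact h4 hxy
    · rintro ⟨rfl, rfl⟩; exact h5 hxy
    · rintro ⟨rfl, rfl⟩; exact h3 hxy
  have hu2 : WeakLE u t2 := fun x y hxy => ((i3 x y).1 (hu3 x y hxy)).1
  have hu1 : WeakLE u t1 := fun x y hxy => ((i2 x y).1 (hu2 x y hxy)).1
  have hus2 : WeakLE u s2 := by
    intro x y hxy
    rw [i5, i4]
    refine ⟨⟨huv' _ _ hxy, ?_⟩, ?_⟩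
    · rintro ⟨rfl, rfl⟩; exact h3 hxy
    · rintro ⟨rfl, rfl⟩; exact h5 hxy
  have t1v : WeakLE t1 v := fun x y hxy => hv' _ _ ((i1 x y).1 hxy).1
  have t2v : WeakLE t2 v := fun x y hxy => t1v _ _ ((i2 x y).1 hxy).1
  have s2v : WeakLE s2 v := fun x y hxy => hv' _ _ ((i4 x y).1 ((i5 x y).1 hxy).1).1
  rintro ⟨L, hL⟩
  letI := L
  let T1 : Interval u v := ⟨t1, hu1, t1v⟩
  let T2 : Interval u v := ⟨t2, hu2, t2v⟩
  let Y : Interval u v := ⟨s2, hus2, s2v⟩
  have hL' : ∀ x y : Interval u v, x ≤ y ↔ WeakLE x.1 y.1 := hL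
  have nab : ¬ (a = b) := ne_of_lt h1
  have nbc : ¬ (b = c) := ne_of_lt h2
  have nac : ¬ (a = c) := ne_of_lt (h1.trans h2)
  have k1 : T1 ≤ T2 ⊔ Y := by
    rw [hL']
    intro x y hxy
    have hxy' : IsInv t1 x y := hxy
    have m1 : WeakLE t2 (T2 ⊔ Y).1 := (hL' T2 (T2 ⊔ Y)).1 le_sup_left
    have m2 : WeakLE s2 (T2 ⊔ Y).1 := (hL' Y (T2 ⊔ Y)).1 le_sup_right
    by_cases hc1 : x = a ∧ y = c
    · obtain ⟨rfl, rfl⟩ := hc1
      refine isInv_trans (b := b) (m1 _ _ ?_) (m2 _ _ ?_)
      · rw [i2, i1]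
        exact ⟨⟨vab, fun h => nab h.1⟩, fun h => nbc h.2⟩
      · rw [i5, i4]
        exact ⟨⟨vbc, fun h => nab h.1.symm⟩, fun h => nab h.1.symm⟩
    · exact m1 _ _ ((i2 x y).2 ⟨hxy', hc1⟩)
  have k2 : T1 ⊓ Y ≤ T2 := by
    rw [hL']
    intro x y hxy
    have m1 : WeakLE (T1 ⊓ Y).1 t1 := (hL' (T1 ⊓ Y) T1).1 inf_le_left
    have m2 : WeakLE (T1 ⊓ Y).1 s2 := (hL' (T1 ⊓ Y) Y).1 inf_le_right
    exact (i2 x y).2 ⟨m1 _ _ hxy, ((i5 x y).1 (m2 _ _ hxy)).2⟩
  have k3 : T1 ≤ T2 := by
    calc T1 = T1 ⊓ (T2 ⊔ Y) := (inf_eq_left.2 k1).symm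
      _ = (T1 ⊓ T2) ⊔ (T1 ⊓ Y) := inf_sup_left _ _ _
      _ ≤ T2 := sup_le inf_le_right k2
  have k4 : WeakLE t1 t2 := (hL' T1 T2).1 k3
  have k5 := k4 a c ((i1 a c).2 ⟨vac, fun h => nab h.1⟩)
  exact ((i2 a c).1 k5).2 ⟨rfl, rfl⟩

theorem good_of_dist {n : ℕ} {u v : Perm (Fin n)} (huv : WeakLE u v)
    (hd : IsDistributiveInterval u v) : Good u v := by
  classical
  by_contra hng
  rw [good_iff huv, not_not] at hng
  -- minimal v'
  let N : Perm (Fin n) → ℕ := fun w =>
    (Finset.univ.filter (fun x : Fin n × Fin n => IsInv w x.1 x.2)).card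
  let Q : Perm (Fin n) → Prop := fun w => WeakLE u w ∧ WeakLE w v ∧
    ∃ a b c : Fin n, IsInv w a b ∧ ¬ IsInv u a b ∧ IsInv w b c ∧ ¬ IsInv u b c
  have hex : ∃ m, ∃ w, Q w ∧ N w = m := ⟨N v, v, ⟨huv, fun _ _ h => h, hng⟩, rfl⟩
  obtain ⟨v', ⟨hQ1, hQ2, a, b, c, hab, hab', hbc, hbc'⟩, hN⟩ := Nat.find_spec hex
  have hmin : ∀ w, Q w → N v' ≤ N w := by
    intro w hw
    rw [hN]
    exact Nat.find_min' hex ⟨w, hw, rfl⟩
  -- claim
  have claim : ∀ i j : Fin n, j.val = i.val + 1 → u.symm (v' j) < u.symm (v' i) →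
      (a = v' j ∧ b = v' i) ∨ (b = v' j ∧ c = v' i) := by
    intro i j hij hlt
    by_contra hcon
    push Not at hcon
    have hij' : i < j := by rw [Fin.lt_def]; omega
    have hlt' : v' j < v' i := by
      refine inv_of_inv hQ1 hlt ?_
      simpa using hij'
    have hinv := adj_swap v' i j hij hlt'
    have hnu : ¬ IsInv u (v' j) (v' i) := fun h => lt_asymm h.2 hlt
    have hvji : IsInv v' (v' j) (v' i) := ⟨hlt', by simpa using hij'⟩
    have hle : N v' ≤ N (v' * swap i j) := by
      apply hmin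
      refine ⟨?_, ?_, a, b, c, ?_, hab', ?_, hbc'⟩
      · intro x y hxy
        rw [hinv]
        refine ⟨hQ1 _ _ hxy, ?_⟩
        rintro ⟨rfl, rfl⟩
        exact hnu hxy
      · intro x y hxy
        exact hQ2 _ _ ((hinv x y).1 hxy).1
      · rw [hinv]
        refine ⟨hab, ?_⟩
        rintro ⟨h1, h2⟩
        exact hcon.1 h1 h2
      · rw [hinv]
        refine ⟨hbc, ?_⟩
        rintro ⟨h1, h2⟩
        exact hcon.2 h1 h2
    have hlt2 : N (v' * swap i j) < N v' := by
      apply Finset.card_lt_card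
      refine ⟨?_, ?_⟩
      · intro x hx
        simp only [Finset.mem_filter, Finset.mem_univ, true_and] at hx ⊢
        exact ((hinv _ _).1 hx).1
      · intro hsub
        have : (v' j, v' i) ∈ Finset.univ.filter
            (fun x : Fin n × Fin n => IsInv (v' * swap i j) x.1 x.2) :=
          hsub (by simpa using hvji)
        simp only [Finset.mem_filter, Finset.mem_univ, true_and] at this
        exact ((hinv _ _).1 this).2 ⟨rfl, rfl⟩
    omega
  have desc : ∀ p q : Fin n, p < q → u.symm (v' q) < u.symm (v' p) →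
      ∃ i j : Fin n, j.val = i.val + 1 ∧ p ≤ i ∧ j ≤ q ∧ u.symm (v' j) < u.symm (v' i) := by
    intro p q hpq hlt
    obtain ⟨i, h1, h2, h3⟩ := exists_adj_descent
      (fun k => if h : k < n then (u.symm (v' ⟨k, h⟩)).val else 0) p.val q.val hpq (by
        simp only [p.2, q.2, dif_pos]
        exact hlt)
    have hi : i < n := by have := q.2; omega
    have hi1 : i + 1 < n := by have := q.2; omega
    refine ⟨⟨i, hi⟩, ⟨i + 1, hi1⟩, rfl, ?_, ?_, ?_⟩
    · rw [Fin.le_def]; exact h1
    · rw [Fin.le_def]; exact h2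
    · simp only [hi, hi1, dif_pos] at h3
      exact h3
  have uab : u.symm a < u.symm b := by
    rcases lt_trichotomy (u.symm a) (u.symm b) with h | h | h
    · exact h
    · exact absurd (u.symm.injective h) (ne_of_lt hab.1)
    · exact absurd ⟨hab.1, h⟩ hab'
  have ubc : u.symm b < u.symm c := by
    rcases lt_trichotomy (u.symm b) (u.symm c) with h | h | h
    · exact h
    · exact absurd (u.symm.injective h) (ne_of_lt hbc.1)
    · exact absurd ⟨hbc.1, h⟩ hbc'
  obtain ⟨p, hp⟩ : ∃ p, v'.symm c = p := ⟨_, rfl⟩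
  obtain ⟨q, hq⟩ : ∃ q, v'.symm b = q := ⟨_, rfl⟩
  obtain ⟨r, hr⟩ : ∃ r, v'.symm a = r := ⟨_, rfl⟩
  have hp' : v' p = c := by rw [← hp]; simp
  have hq' : v' q = b := by rw [← hq]; simp
  have hr' : v' r = a := by rw [← hr]; simp
  have hpq : p < q := by rw [← hp, ← hq]; exact hbc.2
  have hqr : q < r := by rw [← hq, ← hr]; exact hab.2
  have hq1 : q.val = p.val + 1 := by
    obtain ⟨i, j, h1, h2, h3, h4⟩ := desc p q hpq (by rw [hp', hq']; exact ubc)
    rcases claim i j h1 h4 with ⟨h5, h6⟩ | ⟨h5, h6⟩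
    · have : r = j := by
        apply v'.injective
        rw [hr', h5]
      rw [this] at hqr
      exact absurd h3 (not_le.2 hqr)
    · have e1 : q = j := by
        apply v'.injective
        rw [hq', h5]
      have e2 : p = i := by
        apply v'.injective
        rw [hp', h6]
      rw [e1, e2]; exact h1
  have hr1 : r.val = q.val + 1 := by
    obtain ⟨i, j, h1, h2, h3, h4⟩ := desc q r hqr (by rw [hr', hq']; exact uab)
    rcases claim i j h1 h4 with ⟨h5, h6⟩ | ⟨h5, h6⟩
    · have e1 : r = j := by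
        apply v'.injective
        rw [hr', h5]
      have e2 : q = i := by
        apply v'.injective
        rw [hq', h6]
      rw [e1, e2]; exact h1
    · have : p = i := by
        apply v'.injective
        rw [hp', h6]
      rw [this] at hpq
      exact absurd h2 (not_le.2 hpq)
  refine not_dist_of_pattern hq1 hr1 hQ2 ?_ ?_ hQ1 ?_ ?_ hd
  · rw [hr', hq']; exact hab.1
  · rw [hq', hp']; exact hbc.1
  · rw [hr', hq']; exact hab'
  · rw [hq', hp']; exact hbc'

theorem dist_iff {n : ℕ} {u v : Perm (Fin n)} (huv : WeakLE u v) :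
    IsDistributiveInterval u v ↔ Good u v :=
  ⟨good_of_dist huv, dist_of_good huv⟩

theorem good_iff_avoids {n : ℕ} (u v : Perm (Fin n)) : Good u v ↔ Avoids321 (u⁻¹ * v) := by
  unfold Good Avoids321
  rw [not_iff_not]
  constructor
  · rintro ⟨a, b, c, h1, h2, h3, h4⟩
    refine ⟨v.symm c, v.symm b, v.symm a, h3, h4, ?_, ?_⟩
    · simpa using h1
    · simpa using h2
  · rintro ⟨i, j, k, h1, h2, h3, h4⟩
    refine ⟨v k, v j, v i, ?_, ?_, ?_, ?_⟩
    · simpa using h3
    · simpa using h4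
    · simpa using h1
    · simpa using h2

/-- The interval `[u, v]` of the weak order is a distributive lattice if and only if `u⁻¹ v`
avoids 321. -/
theorem result (n : ℕ) (u v : Perm (Fin n)) (huv : WeakLE u v) :
    IsDistributiveInterval u v ↔ Avoids321 (u⁻¹ * v) := by
  rw [dist_iff huv, good_iff_avoids]

end Pool.Agent.Results.MP_1660ca_co.DistributiveIff
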